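import Pool.Agent.Q198.RQ.Stm

/-!
# The group of norm one elements congruent to one modulo four
-/

open UpperHalfPlane MatrixGroups

namespace Q198.RQ

theorem sqrt7 : Real.sqrt 7 * Real.sqrt 7 = 7 := Real.mul_self_sqrt (by norm_num)

theorem MM_mul (φ : ℤ√2 →+* ℝ) (x y : QV) : MM φ x * MM φ y = MM φ (mulQ x y) := by
  have h7 : φ 7 = 7 := map_ofNat φ 7
  ext i j
  fin_cases i <;> fin_cases j <;>
    simp [MM, mulQ, Matrix.mul_apply, Fin.sum_univ_two, h7] <;> ring_nf <;>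
    simp only [Real.sq_sqrt (show (0 : ℝ) ≤ 7 by norm_num)] <;> ring

theorem MM_det (φ : ℤ√2 →+* ℝ) (x : QV) : (MM φ x).det = φ (nrd x) := by
  have h7 : φ 7 = 7 := map_ofNat φ 7
  simp [MM, nrd, Matrix.det_fin_two, h7]
  ring_nf
  simp only [Real.sq_sqrt (show (0 : ℝ) ≤ 7 by norm_num)]
  ring

theorem nrd_mul (x y : QV) : nrd (mulQ x y) = nrd x * nrd y := by
  simp [nrd, mulQ]
  ring

theorem nrd_conj (x : QV) : nrd (conjQ x) = nrd x := by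
  simp [nrd, conjQ]

/-- the unit vector `1` -/
def oneQ : QV := ![1, 0, 0, 0]

theorem nrd_one : nrd oneQ = 1 := by simp [nrd, oneQ]

theorem MM_one (φ : ℤ√2 →+* ℝ) : MM φ oneQ = 1 := by
  ext i j
  fin_cases i <;> fin_cases j <;> simp [MM, oneQ]

theorem mul_conj (x : QV) : mulQ x (conjQ x) = ![nrd x, 0, 0, 0] := by
  ext i : 1
  fin_cases i <;> simp [mulQ, conjQ, nrd] <;> ring

theorem conj_mul (x : QV) : mulQ (conjQ x) x = ![nrd x, 0, 0, 0] := by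
  ext i : 1
  fin_cases i <;> simp [mulQ, conjQ, nrd] <;> ring

/-- congruent to `1` modulo `4` -/
def Cong (x : QV) : Prop := ∀ i, (4 : ℤ√2) ∣ x i - oneQ i

theorem cong_one : Cong oneQ := fun i => by simp

theorem cong_conj {x : QV} (h : Cong x) : Cong (conjQ x) := by
  intro i
  have h0 := h 0
  have h1 := h 1
  have h2 := h 2
  have h3 := h 3
  fin_cases i
  · simpa [conjQ, oneQ] using h0
  · simpa [conjQ, oneQ] using h1
  · simpa [conjQ, oneQ] using h2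
  · simpa [conjQ, oneQ] using h3

theorem cong_mul {x y : QV} (hx : Cong x) (hy : Cong y) : Cong (mulQ x y) := by
  obtain ⟨a0, h0⟩ := hx 0
  obtain ⟨a1, h1⟩ := hx 1
  obtain ⟨a2, h2⟩ := hx 2
  obtain ⟨a3, h3⟩ := hx 3
  obtain ⟨b0, g0⟩ := hy 0
  obtain ⟨b1, g1⟩ := hy 1
  obtain ⟨b2, g2⟩ := hy 2
  obtain ⟨b3, g3⟩ := hy 3
  simp [oneQ] at h0 h1 h2 h3 g0 g1 g2 g3
  have h0' : x 0 = 1 + 4 * a0 := by rw [← h0]; ring
  have g0' : y 0 = 1 + 4 * b0 := by rw [← g0]; ring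
  intro i
  fin_cases i
  · refine ⟨a0 + b0 + 4 * a0 * b0 - 4 * a1 * b1 + 28 * a2 * b2 + 28 * a3 * b3, ?_⟩
    simp [mulQ, oneQ, h0', g0', h1, h2, h3, g1, g2, g3]; ring
  · refine ⟨b1 + a1 + 4 * a0 * b1 + 4 * a1 * b0 - 28 * a2 * b3 + 28 * a3 * b2, ?_⟩
    simp [mulQ, oneQ, h0', g0', h1, h2, h3, g1, g2, g3]; ring
  · refine ⟨b2 + a2 + 4 * a0 * b2 + 4 * a2 * b0 - 4 * a1 * b3 + 4 * a3 * b1, ?_⟩
    simp [mulQ, oneQ, h0', g0', h1, h2, h3, g1, g2, g3]; ring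
  · refine ⟨b3 + a3 + 4 * a0 * b3 + 4 * a3 * b0 + 4 * a1 * b2 - 4 * a2 * b1, ?_⟩
    simp [mulQ, oneQ, h0', g0', h1, h2, h3, g1, g2, g3]; ring

theorem inv_eq_of_mul {A B : SL(2, ℝ)} (h : A * B = 1) : B = A⁻¹ := by
  exact (inv_eq_of_mul_eq_one_right h).symm

/-- The lattice `Γ`. -/
noncomputable def Gam : Subgroup G2 where
  carrier := {g | ∃ x : QV, Cong x ∧ nrd x = 1 ∧ g.1.1 = MM pl x ∧ g.2.1 = MM mi x}
  one_mem' := ⟨oneQ, cong_one, nrd_one, by simp [MM_one], by simp [MM_one]⟩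
  mul_mem' := by
    rintro g h ⟨x, hx, nx, x1, x2⟩ ⟨y, hy, ny, y1, y2⟩
    refine ⟨mulQ x y, cong_mul hx hy, by rw [nrd_mul, nx, ny, one_mul], ?_, ?_⟩
    · show (g.1 * h.1).1 = _
      rw [← MM_mul, ← x1, ← y1]; rfl
    · show (g.2 * h.2).1 = _
      rw [← MM_mul, ← x2, ← y2]; rfl
  inv_mem' := by
    rintro g ⟨x, hx, nx, x1, x2⟩
    refine ⟨conjQ x, cong_conj hx, by rw [nrd_conj, nx], ?_, ?_⟩
    · show (g.1⁻¹).1 = _
      rw [Matrix.SpecialLinearGroup.coe_inv, x1]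
      ext i j
      fin_cases i <;> fin_cases j <;> simp [MM, conjQ, Matrix.adjugate_fin_two] <;> ring
    · show (g.2⁻¹).1 = _
      rw [Matrix.SpecialLinearGroup.coe_inv, x2]
      ext i j
      fin_cases i <;> fin_cases j <;> simp [MM, conjQ, Matrix.adjugate_fin_two] <;> ring

theorem mem_Gam {g : G2} :
    g ∈ Gam ↔ ∃ x : QV, Cong x ∧ nrd x = 1 ∧ g.1.1 = MM pl x ∧ g.2.1 = MM mi x := Iff.rfl

end Q198.RQ
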