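import Pool.Agent.Q198.RQ.Stm

/-!
# Geometry of the product of two hyperbolic planes
-/

open UpperHalfPlane MatrixGroups Pointwise

namespace Q198.RQ

theorem dist_ax (s t : ℝ) : dist (ax s) (ax t) = |s - t| := by
  rw [UpperHalfPlane.dist_of_re_eq (by rfl)]
  have h : ∀ r, (ax r).im = Real.exp r := fun r => rfl
  rw [h, h, Real.log_exp, Real.log_exp, Real.dist_eq]

theorem dist_smul_ax (S : SL(2, ℝ)) (s t : ℝ) : dist (S • ax s) (S • ax t) = |s - t| := by
  rw [dist_smul, dist_ax]

theorem ax_zero : ax 0 = I := by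
  ext
  simp only [ax, Real.exp_zero]
  rfl

theorem d2_smul (g : G2) (x y : ℍ × ℍ) : d2 (g • x) (g • y) = d2 x y := by
  simp only [d2, smul_def, dist_smul]

theorem d2_line (S : SL(2, ℝ)) (p : ℍ) (s t : ℝ) :
    d2 (S • ax s, p) (S • ax t, p) = |s - t| := by
  simp only [d2, dist_smul_ax, dist_self]
  rw [zero_pow two_ne_zero, add_zero, Real.sqrt_sq (abs_nonneg _)]

theorem continuous_ax : Continuous ax :=
  (Isometry.of_dist_eq fun s t => by rw [dist_ax, Real.dist_eq]).continuous

theorem ax_inj {s t : ℝ} (h : ax s = ax t) : s = t := by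
  have h1 := dist_ax s t
  rw [h, dist_self] at h1
  exact sub_eq_zero.1 (abs_eq_zero.1 h1.symm)

/-- A horizontal geodesic bounds a flat half plane. -/
theorem bounds (S : SL(2, ℝ)) (p : ℍ) : BoundsHalfPlane fun t => (S • ax t, p) := by
  obtain ⟨T, hT⟩ : ∃ T : SL(2, ℝ), T • I = p := MulAction.exists_smul_eq _ _ _
  refine ⟨fun x y => (S • ax x, T • ax y), ?_, ?_⟩
  · intro x y x' y' _ _
    simp only [d2, dist_smul_ax, sq_abs]
  · intro x
    show (S • ax x, T • ax 0) = (S • ax x, p)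
    rw [ax_zero, hT]

end Q198.RQ
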