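import Pool.Agent.Q198.RQ.Free
import Pool.Agent.Q198.RQ.Geo

/-!
# The stable centraliser
-/

open UpperHalfPlane MatrixGroups Pointwise

namespace Q198.RQ

/-- coordinates of the special element -/
def xg : QV := ![⟨497, 352⟩, ⟨280, 196⟩, ⟨216, 152⟩, 0]

theorem nrd_xg : nrd xg = 1 := by
  simp only [nrd, xg, Matrix.cons_val_zero, Matrix.cons_val_one, Matrix.cons_val]
  decide

theorem cong_xg : Cong xg := by
  intro i
  fin_cases i
  · exact ⟨⟨124, 88⟩, by simp only [xg, oneQ]; decide⟩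
  · exact ⟨⟨70, 49⟩, by simp only [xg, oneQ]; decide⟩
  · exact ⟨⟨54, 38⟩, by simp only [xg, oneQ]; decide⟩
  · exact ⟨0, by simp [xg, oneQ]⟩

/-- the special element -/
noncomputable def g0 : G2 := el xg nrd_xg

theorem g0_mem : g0 ∈ Gam := ⟨xg, cong_xg, nrd_xg, rfl, rfl⟩

theorem tr1 : g0.1.1 0 0 + g0.1.1 1 1 = 2 * (497 + 352 * Real.sqrt 2) := by
  show MM pl xg 0 0 + MM pl xg 1 1 = _
  simp [MM, xg, pl_apply]
  ring

theorem tr2 : g0.2.1 0 0 + g0.2.1 1 1 = 2 * (497 - 352 * Real.sqrt 2) := by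
  show MM mi xg 0 0 + MM mi xg 1 1 = _
  simp [MM, xg, mi_apply]
  ring

theorem hyp1 : 2 < |g0.1.1 0 0 + g0.1.1 1 1| := by
  rw [tr1, abs_of_nonneg (by positivity)]
  have := Real.sqrt_nonneg 2
  linarith

theorem ell2 : |g0.2.1 0 0 + g0.2.1 1 1| < 2 := by
  rw [tr2, abs_lt]
  have h1 := Real.mul_self_sqrt (show (0 : ℝ) ≤ 2 by norm_num)
  have h2 := Real.sqrt_nonneg 2
  constructor <;> nlinarith

/-- Elements of `Γ` translating along the line `(S • ax t, p)`. -/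
noncomputable def HH (S : SL(2, ℝ)) (p : ℍ) : Subgroup G2 where
  carrier := {h | h ∈ Gam ∧ h.2 • p = p ∧ ∃ t : ℝ, ∀ s, h.1 • (S • ax s) = S • ax (s + t)}
  one_mem' := ⟨Gam.one_mem, one_smul _ _, 0, fun s => by rw [add_zero]; exact one_smul _ _⟩
  mul_mem' := by
    rintro a b ⟨ha, ha2, t, ht⟩ ⟨hb, hb2, r, hr⟩
    refine ⟨Gam.mul_mem ha hb, ?_, t + r, fun s => ?_⟩
    · show (a.2 * b.2) • p = p
      rw [mul_smul, hb2, ha2]
    · show (a.1 * b.1) • (S • ax s) = _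
      rw [mul_smul, hr, ht]
      congr 2; ring
  inv_mem' := by
    rintro a ⟨ha, ha2, t, ht⟩
    refine ⟨Gam.inv_mem ha, ?_, -t, fun s => ?_⟩
    · show a.2⁻¹ • p = p
      rw [inv_smul_eq_iff, ha2]
    · show a.1⁻¹ • (S • ax s) = _
      rw [inv_smul_eq_iff, ht]
      congr 2; ring

theorem cyclic (hD : S_DIV) (hF : S_FIX) (hC : S_CYC) (S : SL(2, ℝ)) (p : ℍ)
    (hne : ∃ a ∈ HH S p, a ≠ 1) :
    ∃ z ∈ HH S p, (∀ a ∈ HH S p, ∃ k : ℤ, a = z ^ k) ∧ ∀ k : ℤ, z ^ k = 1 → k = 0 := by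
  have hex : ∀ a : HH S p, ∃ t : ℝ, ∀ s, a.1.1 • (S • ax s) = S • ax (s + t) := fun a => a.2.2.2
  choose τ hτ using hex
  have huni : ∀ (a : HH S p) (t : ℝ), a.1.1 • (S • ax 0) = S • ax t → τ a = t := by
    intro a t h
    have h1 := hτ a 0
    rw [h, zero_add] at h1
    exact (ax_inj (smul_left_cancel S h1)).symm
  have hmul : ∀ a b, τ (a * b) = τ a + τ b := by
    intro a b
    refine huni _ _ ?_
    show (a.1.1 * b.1.1) • (S • ax 0) = _
    rw [mul_smul, hτ, hτ]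
    congr 2; ring
  have hinj : ∀ a, τ a = 0 → a = 1 := by
    intro a h
    apply Subtype.ext
    refine free hD hF a.2.1 (x := (S • ax 0, p)) ?_
    rw [smul_def]
    refine Prod.ext ?_ a.2.2.1
    show a.1.1 • (S • ax 0) = S • ax 0
    rw [hτ, h, add_zero]
  have hfin : {a : HH S p | |τ a| ≤ 1}.Finite := by
    have hK : IsCompact ({(S • ax 0, p)} : Set (ℍ × ℍ)) := isCompact_singleton
    have hcont : Continuous fun t : ℝ => ((S • ax t, p) : ℍ × ℍ) :=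
      (continuous_ax.const_smul S).prodMk continuous_const
    have hL := (isCompact_Icc (a := (-1 : ℝ)) (b := 1)).image hcont
    refine Set.Finite.of_finite_image (f := Subtype.val) ((finite_meet hK hL).subset ?_)
      Subtype.val_injective.injOn
    rintro _ ⟨a, ha, rfl⟩
    refine ⟨a.2.1, a.1 • (S • ax 0, p), ⟨_, rfl, rfl⟩, τ a, abs_le.1 ha, ?_⟩
    rw [smul_def]
    refine Prod.ext ?_ a.2.2.1.symm
    show S • ax (τ a) = a.1.1 • (S • ax 0)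
    rw [hτ, zero_add]
  obtain ⟨z, h1, h2⟩ := hC (HH S p) inferInstance τ hmul hinj hfin (by
    obtain ⟨a, ha, ha1⟩ := hne
    exact ⟨⟨a, ha⟩, fun h => ha1 (congrArg Subtype.val h)⟩)
  refine ⟨z.1, z.2, fun a ha => ?_, fun k hk => h2 k (Subtype.ext ?_)⟩
  · obtain ⟨k, hk⟩ := h1 ⟨a, ha⟩
    refine ⟨k, ?_⟩
    have := congrArg Subtype.val hk
    simpa using this
  · simpa using hk

theorem main_element (hD : S_DIV) (hF : S_FIX) (hC : S_CYC) (hE : S_ELL) (hH : S_HYP)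
    (hK : S_COM) :
    ∃ g ∈ Gam, g ≠ 1 ∧ ¬ RankOne g ∧ ∃ z ∈ SC Gam g,
      (∀ h, h ∈ SC Gam g ↔ ∃ k : ℤ, h = z ^ k) ∧ ∀ k : ℤ, z ^ k = 1 → k = 0 := by
  obtain ⟨S, l, hl, ht⟩ := hH _ hyp1
  obtain ⟨p, hp⟩ := hE _ ell2
  have hpow : ∀ n : ℕ, ∀ t, (g0 ^ n).1 • (S • ax t) = S • ax (t + n * l) := by
    intro n
    induction n with
    | zero => intro t; simp
    | succ n ih =>
      intro t
      rw [pow_succ, Prod.fst_mul, mul_smul, ht, ih]
      push_cast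
      congr 2; ring
  have hpow2 : ∀ n : ℕ, (g0 ^ n).2 • p = p := by
    intro n
    induction n with
    | zero => simp
    | succ n ih => rw [pow_succ, Prod.snd_mul, mul_smul, hp, ih]
  have hne : ∀ n : ℕ, 1 ≤ n → g0 ^ n ≠ 1 := by
    intro n hn h
    have h1 := hpow n 0
    rw [h, Prod.fst_one, one_smul] at h1
    have h2 := ax_inj (smul_left_cancel S h1)
    have h3 : (n : ℝ) * l = 0 := by linarith
    rcases mul_eq_zero.1 h3 with h4 | h4
    · have : n = 0 := by exact_mod_cast h4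
      omega
    · exact hl h4
  have hg0H : g0 ∈ HH S p := ⟨g0_mem, hp, l, ht⟩
  have hg1 : g0 ≠ 1 := by simpa using hne 1 le_rfl
  obtain ⟨z, hz, hz1, hz2⟩ := cyclic hD hF hC S p ⟨g0, hg0H, hg1⟩
  have hsub : ∀ h, h ∈ SC Gam g0 → h ∈ HH S p := by
    rintro h ⟨hh, n, hn, hcom⟩
    have hnl : (n : ℝ) * l ≠ 0 := mul_ne_zero (by exact_mod_cast (by omega : n ≠ 0)) hl
    have c1 : h.1 * (g0 ^ n).1 = (g0 ^ n).1 * h.1 := congrArg Prod.fst hcom
    have c2 : h.2 * (g0 ^ n).2 = (g0 ^ n).2 * h.2 := congrArg Prod.snd hcom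
    obtain ⟨s, hs⟩ := hK S (g0 ^ n).1 h.1 _ hnl (hpow n) c1
    refine ⟨hh, ?_, s, hs⟩
    by_contra hc
    have h3 : (g0 ^ n).2 • (h.2 • p) = h.2 • p := by
      rw [← mul_smul, ← c2, mul_smul, hpow2]
    have h4 := hF.2 (g0 ^ n).2 (h.2 • p) p hc h3 (hpow2 n)
    exact hne n hn (snd_pm hD (Gam.pow_mem g0_mem n) h4)
  have hsup : ∀ h, h ∈ HH S p → h ∈ SC Gam g0 := by
    intro h hh
    refine ⟨hh.1, 1, le_rfl, ?_⟩
    obtain ⟨k, hk⟩ := hz1 h hh
    obtain ⟨m, hm⟩ := hz1 g0 hg0H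
    rw [pow_one, hk, hm, ← zpow_add, ← zpow_add, add_comm]
  refine ⟨g0, g0_mem, hg1, ?_, z, hsup z hz, fun h => ⟨fun hh => hz1 h (hsub h hh), ?_⟩, hz2⟩
  · intro hR
    refine hR (fun t => (S • ax t, p)) ⟨d2_line S p, l, hl, fun t => ?_⟩ (bounds S p)
    rw [smul_def]
    exact Prod.ext (ht t) hp
  · rintro ⟨k, rfl⟩
    exact hsup _ ((HH S p).zpow_mem hz k)

end Q198.RQ
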