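import Pool.Agent.Q198.RQ.Disc

/-!
# Cocompactness
-/

open UpperHalfPlane MatrixGroups Pointwise

namespace Q198.RQ

theorem pl_mul_mi (a : ℤ√2) : pl a * mi a = (a.norm : ℝ) := by
  have h := Real.mul_self_sqrt (show (0 : ℝ) ≤ 2 by norm_num)
  rw [pl_apply, mi_apply, Zsqrtd.norm_def]
  push_cast
  linear_combination -(a.im : ℝ) * a.im * h

theorem norm_ne {a : ℤ√2} (h : a ≠ 0) : (a.norm : ℝ) ≠ 0 := by
  have h2 : a.norm ≠ 0 := by
    intro h3
    refine h ((Zsqrtd.norm_eq_zero ?_ a).1 h3)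
    intro n hn
    have h1 : n ≤ 1 := by
      by_contra hc
      have : 2 ≤ n := by omega
      nlinarith
    have h2 : -1 ≤ n := by
      by_contra hc
      have : n ≤ -2 := by omega
      nlinarith
    interval_cases n <;> simp at hn
  exact_mod_cast h2

theorem pl_ne {a : ℤ√2} (h : a ≠ 0) : pl a ≠ 0 := by
  intro h0
  apply norm_ne h
  rw [← pl_mul_mi, h0, zero_mul]

theorem mi_ne {a : ℤ√2} (h : a ≠ 0) : mi a ≠ 0 := by
  intro h0
  apply norm_ne h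
  rw [← pl_mul_mi, h0, mul_zero]

theorem eq_of_pl {a b : ℤ√2} (h : pl a = pl b) : a = b := by
  by_contra hc
  exact pl_ne (sub_ne_zero.2 hc) (by rw [map_sub, h, sub_self])

theorem gamma_of {x l : QV} {v : ℤ√2} (hx : nrd x = v) (hl : nrd l = v) (hv : v ≠ 0)
    (h : ∀ i, 4 * v ∣ x i - l i) :
    ∃ c : QV, Cong c ∧ nrd c = 1 ∧ ∀ i, v * c i = mulQ x (conjQ l) i := by
  choose y hy using h
  have hxl : ∀ i, x i = l i + 4 * v * y i := fun i => by rw [← hy i]; ring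
  let c : QV := fun i => oneQ i + 4 * mulQ y (conjQ l) i
  have hc : ∀ i, v * c i = mulQ x (conjQ l) i := by
    intro i
    have hl' := hl
    simp only [nrd] at hl'
    fin_cases i
    · simp only [c, mulQ, conjQ, oneQ, hxl 0, hxl 1, hxl 2, hxl 3, Fin.zero_eta, Matrix.cons_val_zero,
        Matrix.cons_val_one, Matrix.cons_val, Fin.isValue]
      linear_combination -hl'
    · simp only [c, mulQ, conjQ, oneQ, hxl 0, hxl 1, hxl 2, hxl 3, Fin.mk_one, Matrix.cons_val_zero,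
        Matrix.cons_val_one, Matrix.cons_val, Fin.isValue]
      ring
    · simp only [c, mulQ, conjQ, oneQ, hxl 0, hxl 1, hxl 2, hxl 3, Fin.reduceFinMk, Matrix.cons_val_zero,
        Matrix.cons_val_one, Matrix.cons_val, Fin.isValue]
      ring
    · simp only [c, mulQ, conjQ, oneQ, hxl 0, hxl 1, hxl 2, hxl 3, Fin.reduceFinMk, Matrix.cons_val_zero,
        Matrix.cons_val_one, Matrix.cons_val, Fin.isValue]
      ring
  refine ⟨c, fun i => ⟨mulQ y (conjQ l) i, by simp [c]⟩, ?_, hc⟩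
  have h1 : nrd (fun i => v * c i) = v * v := by
    have : (fun i => v * c i) = mulQ x (conjQ l) := funext hc
    rw [this, nrd_mul, nrd_conj, hx, hl]
  have h2 : v * v * nrd c = v * v := by
    have h3 : nrd (fun i => v * c i) = v * v * nrd c := by simp only [nrd]; ring
    rw [← h3, h1]
  apply eq_of_pl
  have h3 := congrArg pl h2
  simp only [map_mul] at h3
  have h4 := pl_ne hv
  rw [map_one]
  exact mul_left_cancel₀ (mul_ne_zero h4 h4) (by rw [h3, mul_one])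

theorem MM_smul (φ : ℤ√2 →+* ℝ) (v : ℤ√2) (c : QV) :
    MM φ (fun i => v * c i) = φ v • MM φ c := by
  ext i j
  fin_cases i <;> fin_cases j <;> simp [MM] <;> ring

theorem dvd_of_norm {v a : ℤ√2} {N : ℤ} (h : (4 * v.norm) ∣ N) (h1 : N ∣ a.re) (h2 : N ∣ a.im) :
    4 * v ∣ a := by
  have hv : ((v.norm : ℤ) : ℤ√2) = v * star v := by rw [Zsqrtd.norm_eq_mul_conj]
  obtain ⟨k, hk⟩ := h
  obtain ⟨r, hr⟩ := h1
  obtain ⟨s, hs⟩ := h2
  have ha : a = (N : ℤ√2) * ⟨r, s⟩ := by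
    ext
    · simp [hr]
    · simp [hs]
  rw [ha, hk]
  push_cast
  rw [hv]
  exact ⟨star v * k * ⟨r, s⟩, by ring⟩

theorem entry_mul {P Q : Matrix (Fin 2) (Fin 2) ℝ} {C D : ℝ} (hP : ∀ i j, |P i j| ≤ C)
    (hQ : ∀ i j, |Q i j| ≤ D) (i j : Fin 2) : |(P * Q) i j| ≤ 2 * C * D := by
  rw [Matrix.mul_apply, Fin.sum_univ_two]
  have hC : 0 ≤ C := (abs_nonneg _).trans (hP 0 0)
  have h1 : |P i 0 * Q 0 j| ≤ C * D := by
    rw [abs_mul]; exact mul_le_mul (hP i 0) (hQ 0 j) (abs_nonneg _) hC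
  have h2 : |P i 1 * Q 1 j| ≤ C * D := by
    rw [abs_mul]; exact mul_le_mul (hP i 1) (hQ 1 j) (abs_nonneg _) hC
  have h3 := abs_add_le (P i 0 * Q 0 j) (P i 1 * Q 1 j)
  linarith

theorem det_le {P : Matrix (Fin 2) (Fin 2) ℝ} {C : ℝ} (hP : ∀ i j, |P i j| ≤ C) :
    |P.det| ≤ 2 * C * C := by
  rw [Matrix.det_fin_two]
  have hC : 0 ≤ C := (abs_nonneg _).trans (hP 0 0)
  have h1 : |P 0 0 * P 1 1| ≤ C * C := by
    rw [abs_mul]; exact mul_le_mul (hP 0 0) (hP 1 1) (abs_nonneg _) hC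
  have h2 : |P 0 1 * P 1 0| ≤ C * C := by
    rw [abs_mul]; exact mul_le_mul (hP 0 1) (hP 1 0) (abs_nonneg _) hC
  have h3 := abs_sub (P 0 0 * P 1 1) (P 0 1 * P 1 0)
  linarith

/-- finitely many representatives for a function with finite range -/
theorem reps {α β : Type*} (f : α → β) (S : Set α) (h : (f '' S).Finite) :
    ∃ R : Set α, R.Finite ∧ R ⊆ S ∧ ∀ a ∈ S, ∃ r ∈ R, f r = f a := by
  classical
  have : ∀ b : f '' S, ∃ a ∈ S, f a = b := fun b => b.2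
  choose g hg hg' using this
  have := h.to_subtype
  refine ⟨Set.range g, Set.finite_range g, ?_, ?_⟩
  · rintro _ ⟨b, rfl⟩; exact hg b
  · intro a ha
    exact ⟨g ⟨f a, ⟨a, ha, rfl⟩⟩, ⟨_, rfl⟩, hg' _⟩

/-- The class of `x`: reduced norm and residues of the coordinates modulo `N`. -/
def key (N : ℕ) (x : QV) : ℤ√2 × (Fin 4 → ZMod N × ZMod N) :=
  (nrd x, fun i => (((x i).re : ZMod N), ((x i).im : ZMod N)))

theorem exists_modulus (F : Set (ℤ√2)) (hF : F.Finite) :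
    ∃ N : ℕ, N ≠ 0 ∧ ∀ v ∈ F, v ≠ 0 → (4 * v.norm) ∣ (N : ℤ) := by
  classical
  let G : Finset (ℤ√2) := hF.toFinset.filter fun v => v ≠ 0
  refine ⟨(4 * ∏ v ∈ G, v.norm).natAbs, ?_, ?_⟩
  · rw [Int.natAbs_ne_zero]
    refine mul_ne_zero (by norm_num) (Finset.prod_ne_zero_iff.2 fun v hv => ?_)
    have := norm_ne (Finset.mem_filter.1 hv).2
    exact_mod_cast this
  · intro v hv hv0
    rw [Int.dvd_natAbs]
    exact mul_dvd_mul_left 4 (Finset.dvd_prod_of_mem _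
      (Finset.mem_filter.2 ⟨hF.mem_toFinset.2 hv, hv0⟩))

theorem coc (hM : S_MINK) (hD : S_DIV) :
    ∃ C : ℝ, ∀ A B : SL(2, ℝ), ∃ g ∈ Gam,
      (∀ i j, |(A * g.1).1 i j| ≤ C) ∧ ∀ i j, |(B * g.2).1 i j| ≤ C := by
  obtain ⟨C0, hC0⟩ := hM
  obtain ⟨N, hN, hN'⟩ := exists_modulus _ (finite_Z (2 * C0 * C0))
  have : NeZero N := ⟨hN⟩
  let S : Set QV := {x | x ≠ 0 ∧ |pl (nrd x)| ≤ 2 * C0 * C0 ∧ |mi (nrd x)| ≤ 2 * C0 * C0}
  have hfin : (key N '' S).Finite := by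
    refine ((finite_Z (2 * C0 * C0)).prod (Set.finite_univ (α := Fin 4 → ZMod N × ZMod N))).subset ?_
    rintro _ ⟨x, ⟨-, h1, h2⟩, rfl⟩
    exact ⟨⟨h1, h2⟩, Set.mem_univ _⟩
  obtain ⟨R, hR, hRS, hrep⟩ := reps (key N) S hfin
  -- the bound for one representative
  let b : QV → ℝ := fun l => 2 * C0 * (∑ i, ∑ j, (|MM pl (conjQ l) i j| + |MM mi (conjQ l) i j|)) *
    (|pl (nrd l)|⁻¹ + |mi (nrd l)|⁻¹)
  obtain ⟨C, hC⟩ := (hR.image b).bddAbove
  refine ⟨C, fun A B => ?_⟩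
  obtain ⟨x, hx0, hA, hB⟩ := hC0 A.1 B.1 A.2 B.2
  have hC0' : 0 ≤ C0 := (abs_nonneg _).trans (hA 0 0)
  have hxS : x ∈ S := by
    refine ⟨hx0, ?_, ?_⟩
    · have := det_le hA
      rwa [Matrix.det_mul, A.2, one_mul, MM_det] at this
    · have := det_le hB
      rwa [Matrix.det_mul, B.2, one_mul, MM_det] at this
  obtain ⟨l, hl, hkey⟩ := hrep x hxS
  have hnrd : nrd l = nrd x := congrArg Prod.fst hkey
  have hv : nrd x ≠ 0 := fun h => hx0 (hD x h)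
  have hdvd : ∀ i, 4 * nrd x ∣ x i - l i := by
    intro i
    have h1 : (((l i).re : ZMod N), ((l i).im : ZMod N)) =
        (((x i).re : ZMod N), ((x i).im : ZMod N)) := congrFun (congrArg Prod.snd hkey) i
    have h2 : ((l i).re : ZMod N) = ((x i).re : ZMod N) := congrArg Prod.fst h1
    have h3 : ((l i).im : ZMod N) = ((x i).im : ZMod N) := congrArg Prod.snd h1
    rw [ZMod.intCast_eq_intCast_iff_dvd_sub] at h2 h3
    exact dvd_of_norm (hN' _ ⟨hxS.2.1, hxS.2.2⟩ hv) (by simpa using h2) (by simpa using h3)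
  obtain ⟨c, hc1, hc2, hc3⟩ := gamma_of rfl hnrd hv hdvd
  have hsum : ∀ (φ : ℤ√2 →+* ℝ), MM φ x * MM φ (conjQ l) = φ (nrd x) • MM φ c := by
    intro φ
    rw [MM_mul, ← MM_smul]
    congr 1
    exact (funext hc3).symm
  have hbl : b l ≤ C := hC ⟨l, hl, rfl⟩
  have hS1 : ∀ i j, |MM pl (conjQ l) i j| ≤
      ∑ i, ∑ j, (|MM pl (conjQ l) i j| + |MM mi (conjQ l) i j|) := by
    intro i j
    have h2 : |MM pl (conjQ l) i j| + |MM mi (conjQ l) i j| ≤
        ∑ j, (|MM pl (conjQ l) i j| + |MM mi (conjQ l) i j|) :=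
      Finset.single_le_sum (f := fun j => |MM pl (conjQ l) i j| + |MM mi (conjQ l) i j|)
        (fun _ _ => by positivity) (Finset.mem_univ j)
    have h3 : ∑ j, (|MM pl (conjQ l) i j| + |MM mi (conjQ l) i j|) ≤
        ∑ i, ∑ j, (|MM pl (conjQ l) i j| + |MM mi (conjQ l) i j|) :=
      Finset.single_le_sum (f := fun i => ∑ j, (|MM pl (conjQ l) i j| + |MM mi (conjQ l) i j|))
        (fun _ _ => Finset.sum_nonneg fun _ _ => by positivity) (Finset.mem_univ i)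
    have := abs_nonneg (MM mi (conjQ l) i j)
    linarith
  have hS2 : ∀ i j, |MM mi (conjQ l) i j| ≤
      ∑ i, ∑ j, (|MM pl (conjQ l) i j| + |MM mi (conjQ l) i j|) := by
    intro i j
    have h2 : |MM pl (conjQ l) i j| + |MM mi (conjQ l) i j| ≤
        ∑ j, (|MM pl (conjQ l) i j| + |MM mi (conjQ l) i j|) :=
      Finset.single_le_sum (f := fun j => |MM pl (conjQ l) i j| + |MM mi (conjQ l) i j|)
        (fun _ _ => by positivity) (Finset.mem_univ j)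
    have h3 : ∑ j, (|MM pl (conjQ l) i j| + |MM mi (conjQ l) i j|) ≤
        ∑ i, ∑ j, (|MM pl (conjQ l) i j| + |MM mi (conjQ l) i j|) :=
      Finset.single_le_sum (f := fun i => ∑ j, (|MM pl (conjQ l) i j| + |MM mi (conjQ l) i j|))
        (fun _ _ => Finset.sum_nonneg fun _ _ => by positivity) (Finset.mem_univ i)
    have := abs_nonneg (MM pl (conjQ l) i j)
    linarith
  set Sg := ∑ i, ∑ j, (|MM pl (conjQ l) i j| + |MM mi (conjQ l) i j|) with hSg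
  have hSg0 : 0 ≤ Sg := (abs_nonneg _).trans (hS1 0 0)
  have fin1 : ∀ (φ : ℤ√2 →+* ℝ) (P : Matrix (Fin 2) (Fin 2) ℝ), φ (nrd x) ≠ 0 →
      |φ (nrd x)|⁻¹ ≤ |pl (nrd l)|⁻¹ + |mi (nrd l)|⁻¹ →
      (∀ i j, |(P * MM φ x) i j| ≤ C0) → (∀ i j, |MM φ (conjQ l) i j| ≤ Sg) →
      ∀ i j, |(P * MM φ c) i j| ≤ C := by
    intro φ P hne hinv h1 h2 i j
    have e : P * MM φ c = (φ (nrd x))⁻¹ • (P * MM φ x * MM φ (conjQ l)) := by
      rw [Matrix.mul_assoc, hsum, Matrix.mul_smul, smul_smul, inv_mul_cancel₀ hne, one_smul]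
    rw [e, Matrix.smul_apply, smul_eq_mul, abs_mul, abs_inv]
    have h3 := entry_mul h1 h2 i j
    calc |φ (nrd x)|⁻¹ * |(P * MM φ x * MM φ (conjQ l)) i j|
        ≤ (|pl (nrd l)|⁻¹ + |mi (nrd l)|⁻¹) * (2 * C0 * Sg) :=
          mul_le_mul hinv h3 (abs_nonneg _) (by positivity)
      _ = b l := by simp only [b]; rw [← hSg]; ring
      _ ≤ C := hbl
  refine ⟨(⟨MM pl c, by rw [MM_det, hc2, map_one]⟩, ⟨MM mi c, by rw [MM_det, hc2, map_one]⟩),
    ⟨c, hc1, hc2, rfl, rfl⟩, ?_, ?_⟩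
  · refine fin1 pl A.1 (pl_ne hv) ?_ hA hS1
    rw [hnrd]
    have : 0 ≤ |mi (nrd x)|⁻¹ := by positivity
    linarith
  · refine fin1 mi B.1 (mi_ne hv) ?_ hB hS2
    rw [hnrd]
    have : 0 ≤ |pl (nrd x)|⁻¹ := by positivity
    linarith

end Q198.RQ
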