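import Pool.Agent.Q198.RQ.Coc

/-!
# The quotient is compact
-/

open UpperHalfPlane MatrixGroups Pointwise

namespace Q198.RQ

/-- matrices with bounded entries -/
def Bd (C : ℝ) : Set (SL(2, ℝ)) := {E | ∀ i j, |E.1 i j| ≤ C}

theorem isCompact_Bd (C : ℝ) : IsCompact (Bd C) := by
  have h1 : IsCompact (Set.pi Set.univ fun _ : Fin 2 => Set.pi Set.univ fun _ : Fin 2 =>
      Set.Icc (-C) C) :=
    isCompact_univ_pi fun _ => isCompact_univ_pi fun _ => isCompact_Icc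
  have h2 := (Matrix.SpecialLinearGroup.isClosedEmbedding_val (n := Fin 2) (R := ℝ)).isCompact_preimage h1
  refine h2.of_isClosed_subset ?_ ?_
  · have : Bd C = ⋂ i : Fin 2, ⋂ j : Fin 2, {E : SL(2, ℝ) | |E.1 i j| ≤ C} := by
      ext E; simp [Bd]
    rw [this]
    refine isClosed_iInter fun i => isClosed_iInter fun j => ?_
    have hcont : Continuous fun A : SL(2, ℝ) => A.1 i j :=
      (continuous_apply_apply i j).comp continuous_subtype_val
    exact isClosed_le hcont.abs continuous_const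
  · intro E hE i _ j _
    exact abs_le.1 (hE i j)

theorem exists_smul_I (z : ℍ) : ∃ S : SL(2, ℝ), S • I = z :=
  MulAction.exists_smul_eq _ _ _

theorem compact_quot (hM : S_MINK) (hD : S_DIV) :
    CompactSpace (MulAction.orbitRel.Quotient Gam (ℍ × ℍ)) := by
  obtain ⟨C, hC⟩ := coc hM hD
  have hK : IsCompact ((fun E : SL(2, ℝ) × SL(2, ℝ) => ((E.1⁻¹ • I, E.2⁻¹ • I) : ℍ × ℍ)) ''
      (Bd C ×ˢ Bd C)) := by
    refine ((isCompact_Bd C).prod (isCompact_Bd C)).image ?_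
    fun_prop
  refine ⟨?_⟩
  have h2 := hK.image (continuous_quotient_mk' (s := MulAction.orbitRel Gam (ℍ × ℍ)))
  convert h2
  symm
  rw [Set.eq_univ_iff_forall]
  intro q
  induction q using Quotient.inductionOn with
  | h x =>
    obtain ⟨S, hS⟩ := exists_smul_I x.1
    obtain ⟨T, hT⟩ := exists_smul_I x.2
    obtain ⟨g, hg, b1, b2⟩ := hC S⁻¹ T⁻¹
    refine ⟨_, ⟨(S⁻¹ * g.1, T⁻¹ * g.2), ⟨b1, b2⟩, rfl⟩, ?_⟩
    refine Quotient.sound ?_
    refine ⟨⟨g⁻¹, Gam.inv_mem hg⟩, ?_⟩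
    show (g⁻¹ : G2) • x = _
    rw [smul_def]
    refine Prod.ext ?_ ?_
    · simp [mul_smul, hS]
    · simp [mul_smul, hT]

end Q198.RQ
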