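import Pool.Agent.Q198.RQ.Stm

/-!
# The quaternion algebra is a division algebra
-/

open UpperHalfPlane MatrixGroups

namespace Q198.RQ

/-- reduction modulo `3 + √2` -/
def rho : ℤ√2 →+* ZMod 7 := Zsqrtd.lift ⟨4, by decide⟩

theorem rho_apply (x : ℤ√2) : rho x = (x.re : ZMod 7) + x.im * 4 := by
  simp [rho]

theorem rho_zero {x : ℤ√2} (h : rho x = 0) : (⟨3, 1⟩ : ℤ√2) ∣ x := by
  rw [rho_apply] at h
  have h1 : ((x.re + x.im * 4 : ℤ) : ZMod 7) = 0 := by push_cast; exact h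
  rw [ZMod.intCast_zmod_eq_zero_iff_dvd] at h1
  obtain ⟨k, hk⟩ := h1
  push_cast at hk
  refine ⟨⟨3 * k - 2 * x.im, x.im - k⟩, ?_⟩
  ext
  · simp
    linarith
  · simp
    ring

theorem sq_sum : ∀ u v : ZMod 7, u ^ 2 + v ^ 2 = 0 → u = 0 ∧ v = 0 := by decide

theorem zs_norm_eq_zero {a : ℤ√2} (h : a.norm = 0) : a = 0 := by
  refine (Zsqrtd.norm_eq_zero ?_ a).1 h
  intro n hn
  have h1 : n ≤ 1 := by
    by_contra hc
    have : 2 ≤ n := by omega
    nlinarith
  have h2 : -1 ≤ n := by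
    by_contra hc
    have : n ≤ -2 := by omega
    nlinarith
  interval_cases n <;> simp at hn

instance : NoZeroDivisors (ℤ√2) where
  eq_zero_or_eq_zero_of_mul_eq_zero := by
    intro a b h
    have h1 : a.norm * b.norm = 0 := by rw [← Zsqrtd.norm_mul, h]; rfl
    rcases mul_eq_zero.1 h1 with h2 | h2
    · exact Or.inl (zs_norm_eq_zero h2)
    · exact Or.inr (zs_norm_eq_zero h2)

theorem step {x : QV} (h : nrd x = 0) : ∃ y : QV, nrd y = 0 ∧ ∀ i, x i = ⟨3, 1⟩ * y i := by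
  have h7 : (7 : ℤ√2) = ⟨3, 1⟩ * ⟨3, -1⟩ := by ext <;> simp
  have r7 : rho 7 = 0 := by
    have : rho 7 = 7 := map_ofNat rho 7
    rw [this]; rfl
  have e := congrArg rho h
  simp only [nrd, map_sub, map_add, map_mul, map_pow, r7, zero_mul, sub_zero, map_zero] at e
  obtain ⟨e0, e1⟩ := sq_sum _ _ e
  obtain ⟨y0, hy0⟩ := rho_zero e0
  obtain ⟨y1, hy1⟩ := rho_zero e1
  have hne : (⟨3, 1⟩ : ℤ√2) ≠ 0 := by
    intro h
    have := congrArg Zsqrtd.im h
    simp at this
  have h2 : (⟨3, 1⟩ : ℤ√2) * (y0 ^ 2 + y1 ^ 2) = ⟨3, -1⟩ * (x 2 ^ 2 + x 3 ^ 2) := by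
    apply mul_left_cancel₀ hne
    simp only [nrd, hy0, hy1, h7] at h
    linear_combination h
  have e2 := congrArg rho h2
  have r1 : rho (⟨3, 1⟩ : ℤ√2) = 0 := by rw [rho_apply]; decide
  have r2 : rho (⟨3, -1⟩ : ℤ√2) = -1 := by rw [rho_apply]; decide
  simp only [map_mul, map_add, map_pow, r1, r2, zero_mul] at e2
  have e3 : rho (x 2) ^ 2 + rho (x 3) ^ 2 = 0 := by linear_combination e2
  obtain ⟨f2, f3⟩ := sq_sum _ _ e3
  obtain ⟨y2, hy2⟩ := rho_zero f2
  obtain ⟨y3, hy3⟩ := rho_zero f3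
  refine ⟨![y0, y1, y2, y3], ?_, ?_⟩
  · apply mul_left_cancel₀ (mul_ne_zero hne hne)
    simp only [nrd, hy0, hy1, hy2, hy3] at h
    simp only [nrd, Matrix.cons_val_zero, Matrix.cons_val_one, Matrix.cons_val]
    linear_combination h
  · intro i
    fin_cases i
    · exact hy0
    · exact hy1
    · exact hy2
    · exact hy3

theorem descent : ∀ (n : ℕ) (x : QV), nrd x = 0 → (∑ i, (x i).norm.natAbs) ≤ n →
    ∀ i, (x i).norm.natAbs = 0 := by
  intro n
  induction n with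
  | zero =>
    intro x _ h i
    have : (x i).norm.natAbs ≤ ∑ i, (x i).norm.natAbs :=
      Finset.single_le_sum (f := fun i => (x i).norm.natAbs) (fun _ _ => Nat.zero_le _)
        (Finset.mem_univ i)
    omega
  | succ n ih =>
    intro x hx h i
    obtain ⟨y, hy, hxy⟩ := step hx
    have hn : ∀ i, (x i).norm.natAbs = 7 * (y i).norm.natAbs := by
      intro i
      rw [hxy, Zsqrtd.norm_mul, Int.natAbs_mul]
      congr 1
    have hs : (∑ i, (x i).norm.natAbs) = 7 * ∑ i, (y i).norm.natAbs := by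
      rw [Finset.mul_sum]
      exact Finset.sum_congr rfl fun i _ => hn i
    by_cases h0 : (∑ i, (y i).norm.natAbs) = 0
    · have : (y i).norm.natAbs ≤ ∑ i, (y i).norm.natAbs :=
        Finset.single_le_sum (f := fun i => (y i).norm.natAbs) (fun _ _ => Nat.zero_le _)
          (Finset.mem_univ i)
      rw [hn]
      omega
    · have := ih y hy (by omega) i
      rw [hn, this]

theorem t_DIV : S_DIV := by
  intro x hx
  ext i : 1
  exact zs_norm_eq_zero (Int.natAbs_eq_zero.1 (descent _ x hx le_rfl i))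

end Q198.RQ
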