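import Mathlib

/-!
# Products of two hyperbolic planes: definitions

`ℍ` is the hyperbolic plane (upper half plane of Mathlib, with its hyperbolic distance).  The
Riemannian product `ℍ × ℍ` has the distance `d2`.  The group `SL(2,ℝ) × SL(2,ℝ)` acts on it
componentwise, by isometries.
-/

open UpperHalfPlane MatrixGroups

namespace Q198.RQ

/-- The group `SL(2,ℝ) × SL(2,ℝ)`. -/
abbrev G2 : Type := SL(2, ℝ) × SL(2, ℝ)

/-- The distance of the Riemannian product of two hyperbolic planes. -/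
noncomputable def d2 (x y : ℍ × ℍ) : ℝ := Real.sqrt (dist x.1 y.1 ^ 2 + dist x.2 y.2 ^ 2)

/-- The componentwise action. -/
noncomputable instance instAct : MulAction G2 (ℍ × ℍ) where
  smul g x := (g.1 • x.1, g.2 • x.2)
  one_smul x := by
    show ((1 : SL(2, ℝ)) • x.1, (1 : SL(2, ℝ)) • x.2) = x
    simp
  mul_smul g h x := by
    show ((g.1 * h.1) • x.1, (g.2 * h.2) • x.2) = (g.1 • h.1 • x.1, g.2 • h.2 • x.2)
    simp [mul_smul]

theorem smul_def (g : G2) (x : ℍ × ℍ) : g • x = (g.1 • x.1, g.2 • x.2) := rfl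

/-- A geodesic line `c` on which `g` acts by a nontrivial translation. -/
def IsAxis (g : G2) (c : ℝ → ℍ × ℍ) : Prop :=
  (∀ s t, d2 (c s) (c t) = |s - t|) ∧ ∃ l : ℝ, l ≠ 0 ∧ ∀ t, g • c t = c (t + l)

/-- The line `c` bounds a flat half plane: there is a distance preserving map of the Euclidean
half plane `y ≥ 0` which is `c` on the boundary line. -/
def BoundsHalfPlane (c : ℝ → ℍ × ℍ) : Prop :=
  ∃ F : ℝ → ℝ → ℍ × ℍ,
    (∀ x y x' y' : ℝ, 0 ≤ y → 0 ≤ y' →
      d2 (F x y) (F x' y') = Real.sqrt ((x - x') ^ 2 + (y - y') ^ 2)) ∧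
    ∀ x, F x 0 = c x

/-- No axis of `g` bounds a flat half plane. -/
def RankOne (g : G2) : Prop := ∀ c, IsAxis g c → ¬ BoundsHalfPlane c

/-- The stable centraliser of `g` in `Γ`. -/
def SC (Γ : Subgroup G2) (g : G2) : Set G2 :=
  {h | h ∈ Γ ∧ ∃ n : ℕ, 1 ≤ n ∧ h * g ^ n = g ^ n * h}

end Q198.RQ
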