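import Pool.Agent.Q198.RQ.Alg

/-!
# Discreteness
-/

open UpperHalfPlane MatrixGroups Pointwise

namespace Q198.RQ

theorem one_le_sqrt2 : 1 ≤ Real.sqrt 2 := by
  rw [show (1 : ℝ) = Real.sqrt 1 by simp]
  exact Real.sqrt_le_sqrt (by norm_num)

theorem one_le_sqrt7 : 1 ≤ Real.sqrt 7 := by
  rw [show (1 : ℝ) = Real.sqrt 1 by simp]
  exact Real.sqrt_le_sqrt (by norm_num)

theorem coord_bound {y : ℤ√2} {C : ℝ} (h1 : |pl y| ≤ C) (h2 : |mi y| ≤ C) :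
    |(y.re : ℝ)| ≤ C ∧ |(y.im : ℝ)| * Real.sqrt 2 ≤ C := by
  rw [pl_apply] at h1
  rw [mi_apply] at h2
  have e : |(y.im : ℝ)| * Real.sqrt 2 = |(y.im : ℝ) * Real.sqrt 2| := by
    rw [abs_mul, abs_of_nonneg (Real.sqrt_nonneg 2)]
  rw [abs_le] at h1 h2
  rw [e, abs_le, abs_le]
  refine ⟨⟨?_, ?_⟩, ?_, ?_⟩ <;> linarith

theorem finite_Z (C : ℝ) : {y : ℤ√2 | |pl y| ≤ C ∧ |mi y| ≤ C}.Finite := by
  have hf : ((Set.Icc (-⌈C⌉) ⌈C⌉) ×ˢ (Set.Icc (-⌈C⌉) ⌈C⌉) : Set (ℤ × ℤ)).Finite :=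
    (Set.finite_Icc _ _).prod (Set.finite_Icc _ _)
  refine (hf.image fun p => (⟨p.1, p.2⟩ : ℤ√2)).subset ?_
  rintro y ⟨h1, h2⟩
  obtain ⟨b1, b2⟩ := coord_bound h1 h2
  have b2' : |(y.im : ℝ)| ≤ C := by
    have := one_le_sqrt2
    nlinarith [abs_nonneg (y.im : ℝ)]
  refine ⟨(y.re, y.im), ?_, rfl⟩
  have key : ∀ m : ℤ, |(m : ℝ)| ≤ C → m ∈ Set.Icc (-⌈C⌉) ⌈C⌉ := by
    intro m hm
    rw [abs_le] at hm
    have hc := Int.le_ceil C
    constructor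
    · have : (-(⌈C⌉ : ℝ)) ≤ m := by linarith
      exact_mod_cast this
    · have : (m : ℝ) ≤ ⌈C⌉ := by linarith
      exact_mod_cast this
  exact ⟨key _ b1, key _ b2'⟩

theorem finite_QV (C : ℝ) : {x : QV | ∀ i, |pl (x i)| ≤ C ∧ |mi (x i)| ≤ C}.Finite := by
  have := Set.Finite.pi' (fun _ : Fin 4 => finite_Z C)
  exact this

theorem MM_bound {φ : ℤ√2 →+* ℝ} {x : QV} {C : ℝ} (h : ∀ i j, |MM φ x i j| ≤ C) (i : Fin 4) :
    |φ (x i)| ≤ C := by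
  have h00 := h 0 0
  have h01 := h 0 1
  have h10 := h 1 0
  have h11 := h 1 1
  simp [MM] at h00 h01 h10 h11
  have h7 := one_le_sqrt7
  have key : ∀ a b : ℝ, |a + Real.sqrt 7 * b| ≤ C → |a - Real.sqrt 7 * b| ≤ C →
      |a| ≤ C ∧ |b| ≤ C := by
    intro a b ha hb
    rw [abs_le] at ha hb
    have hb' : |Real.sqrt 7 * b| ≤ C := by rw [abs_le]; constructor <;> linarith
    rw [abs_mul, abs_of_nonneg (Real.sqrt_nonneg 7)] at hb'
    refine ⟨by rw [abs_le]; constructor <;> linarith, ?_⟩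
    nlinarith [abs_nonneg b]
  have k1 := key _ _ h00 h11
  have k2 := key (φ (x 1)) (φ (x 3)) (by
    rw [← abs_neg]; convert h10 using 2; ring) h01
  fin_cases i
  · exact k1.1
  · exact k2.1
  · exact k1.2
  · exact k2.2

/-- the element of `SL(2,ℝ) × SL(2,ℝ)` given by an element of norm one -/
noncomputable def el (x : QV) (h : nrd x = 1) : G2 :=
  (⟨MM pl x, by rw [MM_det, h, map_one]⟩, ⟨MM mi x, by rw [MM_det, h, map_one]⟩)

open Classical in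
theorem finite_G (C : ℝ) :
    {g : G2 | g ∈ Gam ∧ (∀ i j, |g.1.1 i j| ≤ C) ∧ ∀ i j, |g.2.1 i j| ≤ C}.Finite := by
  refine ((finite_QV C).image fun x => if h : nrd x = 1 then el x h else 1).subset ?_
  rintro g ⟨⟨x, -, nx, h1, h2⟩, b1, b2⟩
  refine ⟨x, fun i => ⟨MM_bound (fun i j => ?_) i, MM_bound (fun i j => ?_) i⟩, ?_⟩
  · rw [← h1]; exact b1 i j
  · rw [← h2]; exact b2 i j
  · show (if h : nrd x = 1 then el x h else 1) = g
    rw [dif_pos nx]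
    refine Prod.ext (Subtype.ext ?_) (Subtype.ext ?_)
    · exact h1.symm
    · exact h2.symm

theorem entry_bound {K L : Set ℍ} (hK : IsCompact K) (hL : IsCompact L) :
    ∃ C : ℝ, ∀ A : SL(2, ℝ), (A • K ∩ L).Nonempty → ∀ i j, |A.1 i j| ≤ C := by
  have hc : IsCompact {A : SL(2, ℝ) | (A • K ∩ L).Nonempty} :=
    ProperSMul.isCompact_setOfPred_inter_nonempty hK hL
  have h : ∀ i j : Fin 2, ∃ C : ℝ, ∀ A ∈ {A : SL(2, ℝ) | (A • K ∩ L).Nonempty}, |A.1 i j| ≤ C := by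
    intro i j
    have hcont : Continuous fun A : SL(2, ℝ) => A.1 i j :=
      (continuous_apply_apply i j).comp continuous_subtype_val
    obtain ⟨C, hC⟩ := (hc.image hcont).isBounded.exists_norm_le
    exact ⟨C, fun A hA => hC _ ⟨A, hA, rfl⟩⟩
  choose C hC using h
  refine ⟨∑ i, ∑ j, |C i j|, fun A hA i j => ?_⟩
  have h1 := hC i j A hA
  have h2 : |C i j| ≤ ∑ j, |C i j| :=
    Finset.single_le_sum (f := fun j => |C i j|) (fun _ _ => abs_nonneg _) (Finset.mem_univ j)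
  have h3 : ∑ j, |C i j| ≤ ∑ i, ∑ j, |C i j| :=
    Finset.single_le_sum (f := fun i => ∑ j, |C i j|)
      (fun _ _ => Finset.sum_nonneg fun _ _ => abs_nonneg _) (Finset.mem_univ i)
  have h4 := le_abs_self (C i j)
  linarith

theorem finite_meet {K L : Set (ℍ × ℍ)} (hK : IsCompact K) (hL : IsCompact L) :
    {g : G2 | g ∈ Gam ∧ (g • K ∩ L).Nonempty}.Finite := by
  obtain ⟨C1, h1⟩ := entry_bound (hK.image continuous_fst) (hL.image continuous_fst)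
  obtain ⟨C2, h2⟩ := entry_bound (hK.image continuous_snd) (hL.image continuous_snd)
  refine (finite_G (max C1 C2)).subset ?_
  rintro g ⟨hg, y, ⟨x, hx, rfl⟩, hy⟩
  refine ⟨hg, fun i j => ?_, fun i j => ?_⟩
  · refine (h1 g.1 ⟨g.1 • x.1, ⟨x.1, ⟨x, hx, rfl⟩, rfl⟩, ⟨_, hy, rfl⟩⟩ i j).trans (le_max_left _ _)
  · refine (h2 g.2 ⟨g.2 • x.2, ⟨x.2, ⟨x, hx, rfl⟩, rfl⟩, ⟨_, hy, rfl⟩⟩ i j).trans (le_max_right _ _)

instance pdGam : ProperlyDiscontinuousSMul Gam (ℍ × ℍ) := by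
  rw [Subgroup.properlyDiscontinuousSMul_iff]
  intro K L hK hL
  exact finite_meet hK hL

end Q198.RQ
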