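import Pool.Agent.Q198.RQ.Cpt

/-!
# The action is free
-/

open UpperHalfPlane MatrixGroups Pointwise

namespace Q198.RQ

theorem re_im_small {y : ℤ√2} (h1 : |pl y| ≤ 1) (h2 : |mi y| ≤ 1) (h : (4 : ℤ√2) ∣ y - 1) :
    y = 1 := by
  obtain ⟨b1, b2⟩ := coord_bound h1 h2
  have hs : 1 < Real.sqrt 2 := by
    rw [show (1 : ℝ) = Real.sqrt 1 by simp]
    exact Real.sqrt_lt_sqrt (by norm_num) (by norm_num)
  have him : y.im = 0 := by
    by_contra hc
    have h3 : (1 : ℤ) ≤ |y.im| := Int.one_le_abs hc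
    have h4 : (1 : ℝ) ≤ |(y.im : ℝ)| := by exact_mod_cast h3
    nlinarith
  have hre : |y.re| ≤ 1 := by exact_mod_cast b1
  rw [abs_le] at hre
  obtain ⟨k, hk⟩ := h
  have h5 := congrArg Zsqrtd.re hk
  simp at h5
  have h6 : y.re = 1 := by omega
  ext
  · simpa using h6
  · simpa using him

theorem eq_oneQ (hD : S_DIV) {x : QV} (hc : Cong x) (hn : nrd x = 1) (h1 : |pl (x 0)| ≤ 1)
    (h2 : |mi (x 0)| ≤ 1) : x = oneQ := by
  have h0 : x 0 = 1 := re_im_small h1 h2 (by simpa [oneQ] using hc 0)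
  have h3 : nrd ![0, x 1, x 2, x 3] = 0 := by
    simp only [nrd, h0] at hn
    simp only [nrd, Matrix.cons_val_zero, Matrix.cons_val_one, Matrix.cons_val]
    linear_combination hn
  have h4 := hD _ h3
  have e1 := congrFun h4 1
  have e2 := congrFun h4 2
  have e3 := congrFun h4 3
  simp at e1 e2 e3
  ext i : 1
  fin_cases i
  · simpa [oneQ] using h0
  · simpa [oneQ] using e1
  · simpa [oneQ] using e2
  · simpa [oneQ] using e3

theorem eq_one (hD : S_DIV) {g : G2} (hg : g ∈ Gam) (h1 : |g.1.1 0 0 + g.1.1 1 1| ≤ 2)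
    (h2 : |g.2.1 0 0 + g.2.1 1 1| ≤ 2) : g = 1 := by
  obtain ⟨x, hc, hn, x1, x2⟩ := hg
  rw [x1] at h1
  rw [x2] at h2
  have key : ∀ φ : ℤ√2 →+* ℝ, |MM φ x 0 0 + MM φ x 1 1| ≤ 2 → |φ (x 0)| ≤ 1 := by
    intro φ h
    have e : MM φ x 0 0 + MM φ x 1 1 = 2 * φ (x 0) := by simp [MM]; ring
    rw [e, abs_mul, abs_two] at h
    linarith
  have hx := eq_oneQ hD hc hn (key _ h1) (key _ h2)
  subst hx
  refine Prod.ext (Subtype.ext ?_) (Subtype.ext ?_)
  · rw [x1, MM_one]; rfl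
  · rw [x2, MM_one]; rfl

theorem free (hD : S_DIV) (hF : S_FIX) {g : G2} (hg : g ∈ Gam) {x : ℍ × ℍ} (h : g • x = x) :
    g = 1 := by
  rw [smul_def] at h
  exact eq_one hD hg (hF.1 _ _ (congrArg Prod.fst h)) (hF.1 _ _ (congrArg Prod.snd h))

/-- An element of `Γ` whose second component is `±1` is `1`. -/
theorem snd_pm (hD : S_DIV) {g : G2} (hg : g ∈ Gam) (h : g.2 = 1 ∨ g.2 = -1) : g = 1 := by
  obtain ⟨x, hc, hn, x1, x2⟩ := id hg
  have key : ∃ e : ℤ, (e = 1 ∨ e = -1) ∧ MM mi x = (e : ℝ) • (1 : Matrix (Fin 2) (Fin 2) ℝ) := by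
    rcases h with h | h
    · exact ⟨1, Or.inl rfl, by rw [← x2, h]; simp⟩
    · exact ⟨-1, Or.inr rfl, by rw [← x2, h]; simp⟩
  obtain ⟨e, he, h⟩ := key
  have h00 := congrFun (congrFun h 0) 0
  have h11 := congrFun (congrFun h 1) 1
  simp [MM] at h00 h11
  have m0 : mi (x 0) = e := by linarith
  have hx0 : x 0 = e := by
    have : mi (x 0) = mi (e : ℤ√2) := by rw [m0, map_intCast]
    by_contra hc
    exact mi_ne (sub_ne_zero.2 hc) (by rw [map_sub, this, sub_self])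
  have p0 : pl (x 0) = e := by rw [hx0, map_intCast]
  have he' : |(e : ℝ)| ≤ 1 := by
    rcases he with h | h <;> simp [h]
  have hx := eq_oneQ hD hc hn (by rwa [p0]) (by rwa [m0])
  subst hx
  refine Prod.ext (Subtype.ext ?_) (Subtype.ext ?_)
  · rw [x1, MM_one]; rfl
  · rw [x2, MM_one]; rfl

end Q198.RQ
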