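import Pool.Agent.Q198.RQ.Stm

/-!
# Minkowski's theorem, uniformly in the two matrices
-/

open UpperHalfPlane MatrixGroups MeasureTheory

namespace Q198.RQ

/-- indices `(i, (s, j))` -/
abbrev Kp : Type := Fin 2 × (Fin 2 × Fin 2)

/-- the image of `√2` at the place `s` -/
noncomputable def sg (s : Fin 2) : ℝ := if s = 0 then Real.sqrt 2 else -Real.sqrt 2

/-- a real coordinate at the place `s` -/
noncomputable def ph (s : Fin 2) (m : Kp → ℝ) (a b : Fin 2) : ℝ :=
  m (0, (a, b)) + sg s * m (1, (a, b))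

/-- the matrix at the place `s` -/
noncomputable def mt (s : Fin 2) (m : Kp → ℝ) : Matrix (Fin 2) (Fin 2) ℝ :=
  !![ph s m 0 0 + Real.sqrt 7 * ph s m 1 0, ph s m 0 1 - Real.sqrt 7 * ph s m 1 1;
     -(ph s m 0 1 + Real.sqrt 7 * ph s m 1 1), ph s m 0 0 - Real.sqrt 7 * ph s m 1 0]

/-- the fixed linear map -/
noncomputable def L1 : (Kp → ℝ) →ₗ[ℝ] (Kp → ℝ) where
  toFun m q := mt q.2.1 m q.1 q.2.2
  map_add' m m' := by
    ext ⟨i, s, j⟩
    fin_cases i <;> fin_cases j <;> simp [mt, ph] <;> ring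
  map_smul' c m := by
    ext ⟨i, s, j⟩
    fin_cases i <;> fin_cases j <;> simp [mt, ph] <;> ring

theorem L1_ker : LinearMap.ker L1 = ⊥ := by
  rw [LinearMap.ker_eq_bot']
  intro m hm
  have h7 : 0 < Real.sqrt 7 := Real.sqrt_pos.2 (by norm_num)
  have h2 : 0 < Real.sqrt 2 := Real.sqrt_pos.2 (by norm_num)
  have key : ∀ a b : ℝ, a + Real.sqrt 7 * b = 0 → a - Real.sqrt 7 * b = 0 → a = 0 ∧ b = 0 := by
    intro a b h1 h3
    have : Real.sqrt 7 * b = 0 := by linarith
    rcases mul_eq_zero.1 this with h | h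
    · exact absurd h h7.ne'
    · exact ⟨by rw [h] at h1; linarith, h⟩
  have hph : ∀ s a b, ph s m a b = 0 := by
    intro s
    have e00 : mt s m 0 0 = 0 := congrFun hm (0, (s, 0))
    have e01 : mt s m 0 1 = 0 := congrFun hm (0, (s, 1))
    have e10 : mt s m 1 0 = 0 := congrFun hm (1, (s, 0))
    have e11 : mt s m 1 1 = 0 := congrFun hm (1, (s, 1))
    simp [mt] at e00 e01 e10 e11
    obtain ⟨k1, k2⟩ := key _ _ e00 e11
    obtain ⟨k3, k4⟩ := key (ph s m 0 1) (ph s m 1 1) (by linarith) e01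
    intro a b
    fin_cases a <;> fin_cases b
    · exact k1
    · exact k3
    · exact k2
    · exact k4
  ext ⟨c, a, b⟩
  have h0 := hph 0 a b
  have h1 := hph 1 a b
  simp [ph, sg] at h0 h1
  have e1 : m (0, (a, b)) = 0 := by linarith
  have e2 : Real.sqrt 2 * m (1, (a, b)) = 0 := by linarith
  have e3 : m (1, (a, b)) = 0 := by
    rcases mul_eq_zero.1 e2 with h | h
    · exact absurd h h2.ne'
    · exact h
  fin_cases c
  · exact e1
  · exact e3

/-- left multiplication by `A` and `B` -/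
noncomputable def LM (A B : Matrix (Fin 2) (Fin 2) ℝ) : (Kp → ℝ) →ₗ[ℝ] (Kp → ℝ) :=
  Matrix.toLin' (Matrix.blockDiagonal fun o : Fin 2 × Fin 2 => if o.1 = 0 then A else B)

theorem LM_det {A B : Matrix (Fin 2) (Fin 2) ℝ} (hA : A.det = 1) (hB : B.det = 1) :
    LinearMap.det (LM A B) = 1 := by
  rw [LM, LinearMap.det_toLin', Matrix.det_blockDiagonal]
  refine Finset.prod_eq_one fun o _ => ?_
  split_ifs
  · exact hA
  · exact hB

theorem LM_apply (A B : Matrix (Fin 2) (Fin 2) ℝ) (v : Kp → ℝ) (i : Fin 2) (o : Fin 2 × Fin 2) :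
    LM A B v (i, o) = ∑ k, (if o.1 = 0 then A else B) i k * v (k, o) := by
  rw [LM, Matrix.toLin'_apply, Matrix.mulVec, dotProduct, Fintype.sum_prod_type]
  refine Finset.sum_congr rfl fun k _ => ?_
  rw [Finset.sum_eq_single o]
  · rw [Matrix.blockDiagonal_apply_eq]
  · intro o' _ ho
    rw [Matrix.blockDiagonal_apply_ne _ _ _ (Ne.symm ho), zero_mul]
  · intro h; exact absurd (Finset.mem_univ _) h

theorem t_MINK : S_MINK := by
  have hD : LinearMap.det L1 ≠ 0 := by
    intro h
    exact (LinearMap.det_eq_zero_iff_ker_ne_bot.1 h) L1_ker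
  set D := |LinearMap.det L1| with hDdef
  have hD0 : 0 < D := abs_pos.2 hD
  refine ⟨D + 1, fun A B hA hB => ?_⟩
  let f := LM A B ∘ₗ L1
  have hf : LinearMap.det f = LinearMap.det L1 := by
    rw [LinearMap.det_comp, LM_det hA hB, one_mul]
  let b := Pi.basisFun ℝ Kp
  let s : Set (Kp → ℝ) := f ⁻¹' Metric.closedBall 0 (D + 1)
  have hvol : volume (ZSpan.fundamentalDomain b) * 2 ^ Module.finrank ℝ (Kp → ℝ) < volume s := by
    have h1 : volume (ZSpan.fundamentalDomain b) = 1 := by
      rw [ZSpan.volume_fundamentalDomain]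
      have : Matrix.of (b : Kp → Kp → ℝ) = 1 := by
        ext i j
        simp [b, Pi.basisFun_apply, Matrix.one_apply, Pi.single_apply, eq_comm]
      rw [this, Matrix.det_one]; simp
    have h2 : volume s = ENNReal.ofReal |(LinearMap.det f)⁻¹| *
        volume (Metric.closedBall (0 : Kp → ℝ) (D + 1)) :=
      Measure.addHaar_preimage_linearMap volume (by rw [hf]; exact hD) _
    rw [h1, h2, Real.volume_pi_closedBall _ (by positivity), hf, one_mul,
      Module.finrank_fintype_fun_eq_card, abs_inv, ← hDdef,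
      ← ENNReal.ofReal_mul (by positivity)]
    have h3 : (2 : ENNReal) ^ Fintype.card Kp = ENNReal.ofReal (2 ^ Fintype.card Kp) := by
      rw [ENNReal.ofReal_pow (by norm_num), ENNReal.ofReal_ofNat]
    rw [h3, ENNReal.ofReal_lt_ofReal_iff (by positivity)]
    have h4 : Fintype.card Kp = 8 := by simp [Kp]
    rw [h4, mul_pow]
    have h5 : D < (D + 1) ^ 8 := by
      have : D + 1 ≤ (D + 1) ^ 8 := le_self_pow₀ (by linarith) (by norm_num)
      linarith
    rw [inv_mul_eq_div, lt_div_iff₀ hD0]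
    nlinarith
  have hconv : Convex ℝ s := (convex_closedBall _ _).linear_preimage f
  have hsymm : ∀ x ∈ s, -x ∈ s := by
    intro x hx
    simp only [s, Set.mem_preimage, mem_closedBall_zero_iff, map_neg, norm_neg] at hx ⊢
    exact hx
  have hcount : Countable (Submodule.span ℤ (Set.range b)).toAddSubgroup := by
    change Countable (Submodule.span ℤ (Set.range b))
    infer_instance
  obtain ⟨m, hm0, hm⟩ := exists_ne_zero_mem_lattice_of_measure_mul_two_pow_lt_measure
    (ZSpan.isAddFundamentalDomain' b volume) hsymm hconv hvol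
  have hint : ∀ q, ∃ z : ℤ, (z : ℝ) = m.1 q := by
    intro q
    obtain ⟨z, hz⟩ := (b.mem_span_iff_repr_mem ℤ m.1).1 m.2 q
    refine ⟨z, ?_⟩
    have : b.repr m.1 q = m.1 q := by simp [b]
    rw [← this, ← hz]
    rfl
  choose z hz using hint
  let x : QV := ![⟨z (0, (0, 0)), z (1, (0, 0))⟩, ⟨z (0, (0, 1)), z (1, (0, 1))⟩,
    ⟨z (0, (1, 0)), z (1, (1, 0))⟩, ⟨z (0, (1, 1)), z (1, (1, 1))⟩]
  have hmt : ∀ s, mt s m.1 = MM (if s = 0 then pl else mi) x := by
    intro s
    have hp : ∀ (u v : ℤ), (if s = 0 then pl else mi) ⟨u, v⟩ = (u : ℝ) + sg s * v := by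
      intro u v
      unfold sg
      split_ifs
      · rw [pl_apply]; ring
      · rw [mi_apply]; ring
    simp only [mt, MM, ph, x, Matrix.cons_val_zero, Matrix.cons_val_one, Matrix.cons_val, hp, hz]
  have hb : ∀ q, |f m.1 q| ≤ D + 1 := by
    intro q
    have h1 : ‖f m.1‖ ≤ D + 1 := mem_closedBall_zero_iff.1 hm
    exact (norm_le_pi_norm (f m.1) q).trans h1
  have hfm : ∀ i s j, f m.1 (i, (s, j)) =
      ((if s = 0 then A else B) * MM (if s = 0 then pl else mi) x) i j := by
    intro i s j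
    show LM A B (L1 m.1) (i, (s, j)) = _
    rw [LM_apply, Matrix.mul_apply, ← hmt]
    rfl
  refine ⟨x, ?_, fun i j => ?_, fun i j => ?_⟩
  · intro h0
    apply hm0
    apply Subtype.ext
    have h1 : L1 m.1 = 0 := by
      ext ⟨i, s, j⟩
      show mt s m.1 i j = 0
      rw [hmt, h0]
      fin_cases i <;> fin_cases j <;> simp [MM]
    exact (LinearMap.ker_eq_bot'.1 L1_ker) _ h1
  · have := hb (i, (0, j))
    rw [hfm] at this
    simpa using this
  · have := hb (i, (1, j))
    rw [hfm] at this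
    simpa using this

end Q198.RQ
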