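import Pool.Agent.Q198.RQ.Stm

/-!
# Elements of `SL(2,ℝ)` acting on the upper half plane: proofs of the lemma jobs
-/

open UpperHalfPlane MatrixGroups

namespace Q198.RQ

theorem det_eq (A : SL(2, ℝ)) : A.1 0 0 * A.1 1 1 - A.1 0 1 * A.1 1 0 = 1 := by
  rw [← Matrix.det_fin_two]; exact A.2

theorem smul_iff (A : SL(2, ℝ)) (z w : ℍ) : A • z = w ↔
    (A.1 0 0 * z.re + A.1 0 1 = w.re * (A.1 1 0 * z.re + A.1 1 1) - w.im * (A.1 1 0 * z.im)) ∧
    A.1 0 0 * z.im = w.re * (A.1 1 0 * z.im) + w.im * (A.1 1 0 * z.re + A.1 1 1) := by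
  have hd : ((A.1 1 0 : ℝ) : ℂ) * z + ((A.1 1 1 : ℝ) : ℂ) ≠ 0 := by
    intro h
    have h1 := congrArg Complex.re h
    have h2 := congrArg Complex.im h
    simp at h1 h2
    have h3 : A.1 1 0 = 0 := by
      rcases h2 with h | h
      · exact h
      · exact absurd h z.im_pos.ne'
    rw [h3] at h1
    have h4 : A.1 1 1 = 0 := by linarith
    have := det_eq A
    rw [h3, h4] at this
    norm_num at this
  rw [UpperHalfPlane.ext_iff, coe_specialLinearGroup_apply]
  have e : ∀ r : ℝ, algebraMap ℝ ℝ r = r := fun r => rfl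
  simp only [e]
  rw [div_eq_iff hd, Complex.ext_iff]
  simp

theorem fix_eq {A : SL(2, ℝ)} {z : ℍ} (h : A • z = z) :
    A.1 0 0 = 2 * A.1 1 0 * z.re + A.1 1 1 ∧
    A.1 0 1 = -(A.1 1 0 * z.re ^ 2) - A.1 1 0 * z.im ^ 2 ∧
    (A.1 1 0 * z.re + A.1 1 1) ^ 2 + (A.1 1 0 * z.im) ^ 2 = 1 := by
  obtain ⟨h1, h2⟩ := (smul_iff A z z).1 h
  have hy := z.im_pos
  have e1 : A.1 0 0 = 2 * A.1 1 0 * z.re + A.1 1 1 := by
    have : z.im * (A.1 0 0 - (2 * A.1 1 0 * z.re + A.1 1 1)) = 0 := by linear_combination h2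
    rcases mul_eq_zero.1 this with h | h
    · exact absurd h hy.ne'
    · linarith
  have e2 : A.1 0 1 = -(A.1 1 0 * z.re ^ 2) - A.1 1 0 * z.im ^ 2 := by
    rw [e1] at h1
    linear_combination h1
  refine ⟨e1, e2, ?_⟩
  have hdet := det_eq A
  rw [e1, e2] at hdet
  linear_combination hdet

theorem t_FIX : S_FIX := by
  refine ⟨fun A z h => ?_, fun B p q hpq hp hq => ?_⟩
  · obtain ⟨e1, -, e3⟩ := fix_eq h
    rw [e1, abs_le]
    have : (A.1 1 0 * z.re + A.1 1 1) ^ 2 ≤ 1 := by nlinarith [sq_nonneg (A.1 1 0 * z.im)]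
    constructor <;> nlinarith
  · obtain ⟨a1, a2, a3⟩ := fix_eq hp
    obtain ⟨b1, b2, b3⟩ := fix_eq hq
    have hc : B.1 1 0 = 0 := by
      by_contra hc
      have h1 : p.re = q.re := by
        have : 2 * B.1 1 0 * (p.re - q.re) = 0 := by linear_combination b1 - a1
        rcases mul_eq_zero.1 this with h | h
        · exact absurd (by linarith) hc
        · linarith
      have h2 : p.im = q.im := by
        have : B.1 1 0 ^ 2 * (p.im - q.im) * (p.im + q.im) = 0 := by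
          rw [h1] at a3
          linear_combination a3 - b3
        rcases mul_eq_zero.1 this with h | h
        · rcases mul_eq_zero.1 h with h | h
          · exact absurd (pow_eq_zero_iff two_ne_zero |>.1 h) hc
          · linarith
        · have := p.im_pos
          have := q.im_pos
          linarith
      exact hpq (UpperHalfPlane.ext (Complex.ext h1 h2))
    rw [hc] at a1 a2 a3
    have h11 : B.1 1 1 = 1 ∨ B.1 1 1 = -1 := by
      have : (B.1 1 1 - 1) * (B.1 1 1 + 1) = 0 := by linear_combination a3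
      rcases mul_eq_zero.1 this with h | h
      · left; linarith
      · right; linarith
    have h00 : B.1 0 0 = B.1 1 1 := by rw [a1]; ring
    have h01 : B.1 0 1 = 0 := by rw [a2]; ring
    rcases h11 with h | h
    · left
      refine Subtype.ext ?_
      ext i j
      fin_cases i <;> fin_cases j <;> simp [h00, h01, hc, h]
    · right
      refine Subtype.ext ?_
      ext i j
      fin_cases i <;> fin_cases j <;> simp [h00, h01, hc, h]

theorem t_ELL : S_ELL := by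
  intro B h
  have hdet := det_eq B
  rw [abs_lt] at h
  have hT : 0 < 4 - (B.1 0 0 + B.1 1 1) ^ 2 := by nlinarith
  have hc : B.1 1 0 ≠ 0 := by
    intro hc
    rw [hc] at hdet
    nlinarith [sq_nonneg (B.1 0 0 - B.1 1 1)]
  have hs := Real.sq_sqrt hT.le
  have hs0 := Real.sqrt_pos.2 hT
  set s := Real.sqrt (4 - (B.1 0 0 + B.1 1 1) ^ 2) with hsdef
  have hy : 0 < s / (2 * |B.1 1 0|) := by positivity
  refine ⟨⟨⟨(B.1 0 0 - B.1 1 1) / (2 * B.1 1 0), s / (2 * |B.1 1 0|)⟩, hy⟩, ?_⟩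
  rw [smul_iff]
  have e1 : ∀ (x y : ℝ) (hy : 0 < y), (⟨⟨x, y⟩, hy⟩ : ℍ).re = x := fun _ _ _ => rfl
  have e2 : ∀ (x y : ℝ) (hy : 0 < y), (⟨⟨x, y⟩, hy⟩ : ℍ).im = y := fun _ _ _ => rfl
  rw [e1, e2]
  set x := (B.1 0 0 - B.1 1 1) / (2 * B.1 1 0) with hx
  set y := s / (2 * |B.1 1 0|) with hydef
  have hx1 : 2 * B.1 1 0 * x = B.1 0 0 - B.1 1 1 := by rw [hx]; field_simp
  have hy1 : 4 * B.1 1 0 ^ 2 * y ^ 2 = 4 - (B.1 0 0 + B.1 1 1) ^ 2 := by
    rw [← hs, hydef, div_pow, mul_pow, sq_abs]; field_simp; ring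
  refine ⟨?_, ?_⟩
  · have : B.1 1 0 * (B.1 0 0 * x + B.1 0 1 - (x * (B.1 1 0 * x + B.1 1 1) - y * (B.1 1 0 * y))) = 0 := by
      linear_combination -hdet + (1 / 4) * hy1 + (1 / 2) * (B.1 0 0 - B.1 1 1) * hx1 -
        (1 / 4) * (2 * B.1 1 0 * x + B.1 0 0 - B.1 1 1) * hx1
    rcases mul_eq_zero.1 this with h | h
    · exact absurd h hc
    · linarith
  · linear_combination -y * hx1

/-- the diagonal action -/
theorem diag_smul {D : SL(2, ℝ)} (h01 : D.1 0 1 = 0) (h10 : D.1 1 0 = 0) (t : ℝ) :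
    D • ax t = ax (t + Real.log (D.1 0 0 ^ 2)) := by
  have hdet := det_eq D
  rw [h01, h10] at hdet
  have hne : D.1 0 0 ≠ 0 := by
    intro h
    rw [h] at hdet
    norm_num at hdet
  rw [smul_iff]
  have e1 : ∀ t, (ax t).re = 0 := fun _ => rfl
  have e2 : ∀ t, (ax t).im = Real.exp t := fun _ => rfl
  rw [e1, e1, e2, e2, h01, h10, Real.exp_add, Real.exp_log (by positivity)]
  refine ⟨by ring, ?_⟩
  linear_combination -D.1 0 0 * Real.exp t * hdet

theorem conj_smul {A S D : SL(2, ℝ)} (h : A * S = S * D) (h01 : D.1 0 1 = 0) (h10 : D.1 1 0 = 0)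
    (t : ℝ) : A • (S • ax t) = S • ax (t + Real.log (D.1 0 0 ^ 2)) := by
  rw [← mul_smul, h, mul_smul, diag_smul h01 h10]

theorem hyp_of {A : SL(2, ℝ)} {u v : ℝ} (huv : u * v = 1) (hne : u ≠ v) {s00 s01 s10 s11 : ℝ}
    (hdet : s00 * s11 - s01 * s10 = 1)
    (h00 : A.1 0 0 * s00 + A.1 0 1 * s10 = u * s00) (h10 : A.1 1 0 * s00 + A.1 1 1 * s10 = u * s10)
    (h01 : A.1 0 0 * s01 + A.1 0 1 * s11 = v * s01) (h11 : A.1 1 0 * s01 + A.1 1 1 * s11 = v * s11) :
    ∃ (S : SL(2, ℝ)) (l : ℝ), l ≠ 0 ∧ ∀ t : ℝ, A • (S • ax t) = S • ax (t + l) := by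
  let S : SL(2, ℝ) := ⟨!![s00, s01; s10, s11], by rw [Matrix.det_fin_two_of]; exact hdet⟩
  let D : SL(2, ℝ) := ⟨!![u, 0; 0, v], by rw [Matrix.det_fin_two_of]; linarith⟩
  have h : A * S = S * D := by
    refine Subtype.ext ?_
    show A.1 * !![s00, s01; s10, s11] = !![s00, s01; s10, s11] * !![u, 0; 0, v]
    ext i j
    fin_cases i <;> fin_cases j <;> simp [Matrix.mul_apply, Fin.sum_univ_two]
    · linarith
    · linarith
    · linarith
    · linarith
  refine ⟨S, Real.log (u ^ 2), ?_, fun t => ?_⟩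
  · have hu0 : u ≠ 0 := by
      intro h; rw [h] at huv; norm_num at huv
    intro hl
    have h2 : u ^ 2 = 1 := by
      have h3 : 0 < u ^ 2 := by positivity
      exact Real.eq_one_of_pos_of_log_eq_zero h3 hl
    apply hne
    have : u * (u - v) = 0 := by linear_combination h2 - huv
    rcases mul_eq_zero.1 this with h | h
    · exact absurd h hu0
    · linarith
  · exact conj_smul h rfl rfl t

theorem t_HYP : S_HYP := by
  intro A hA
  have hdet := det_eq A
  set a := A.1 0 0 with ha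
  set b := A.1 0 1 with hb
  set c := A.1 1 0 with hc
  set d := A.1 1 1 with hd
  have hT : 0 < (a + d) ^ 2 - 4 := by
    have h1 := sq_abs (a + d)
    nlinarith
  by_cases h0 : c = 0
  · rw [h0] at hdet
    have hne : a ≠ d := by
      intro h
      rw [h] at hT hdet
      nlinarith
    have hne' : d - a ≠ 0 := sub_ne_zero.2 (Ne.symm hne)
    refine hyp_of (A := A) (u := a) (v := d) (by linarith) hne (s00 := 1) (s01 := b / (d - a))
      (s10 := 0) (s11 := 1) (by ring) ?_ ?_ ?_ ?_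
    · rw [← ha, ← hb]; ring
    · rw [← hc, ← hd, h0]; ring
    · rw [← ha, ← hb]; field_simp; ring
    · rw [← hc, ← hd, h0]; ring
  · have hs := Real.sq_sqrt hT.le
    have hs0 := Real.sqrt_pos.2 hT
    set r := Real.sqrt ((a + d) ^ 2 - 4) with hr
    have hcr : c * r ≠ 0 := mul_ne_zero h0 hs0.ne'
    refine hyp_of (A := A) (u := (a + d + r) / 2) (v := (a + d - r) / 2)
      (by linear_combination -(1 / 4) * hs) (by intro h; linarith)
      (s00 := ((a + d + r) / 2 - d) / (c * r)) (s01 := (a + d - r) / 2 - d)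
      (s10 := c / (c * r)) (s11 := c) ?_ ?_ ?_ ?_ ?_
    · field_simp; ring
    · rw [← ha, ← hb]; field_simp; linear_combination -4 * hdet - hs
    · rw [← hc, ← hd]; field_simp; ring
    · rw [← ha, ← hb]; linear_combination -hdet - (1 / 4) * hs
    · rw [← hc, ← hd]; ring

theorem t_COM : S_COM := by
  intro S D E l hl hD hED
  have hD' : ∀ t, (S⁻¹ * D * S) • ax t = ax (t + l) := by
    intro t
    rw [mul_smul, mul_smul, hD, ← mul_smul, inv_mul_cancel, one_smul]
  have hcom : (S⁻¹ * E * S) * (S⁻¹ * D * S) = (S⁻¹ * D * S) * (S⁻¹ * E * S) := by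
    calc (S⁻¹ * E * S) * (S⁻¹ * D * S) = S⁻¹ * (E * D) * S := by group
      _ = S⁻¹ * (D * E) * S := by rw [hED]
      _ = _ := by group
  have hE : E * S = S * (S⁻¹ * E * S) := by group
  set D' := S⁻¹ * D * S with hD'def
  set E' := S⁻¹ * E * S with hE'def
  have e1 : ∀ t, (ax t).re = 0 := fun _ => rfl
  have e2 : ∀ t, (ax t).im = Real.exp t := fun _ => rfl
  have h0 := (smul_iff _ _ _).1 (hD' 0)
  have h1 := (smul_iff _ _ _).1 (hD' 1)
  rw [e1, e1, e2, e2] at h0 h1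
  obtain ⟨h0, h0'⟩ := h0
  obtain ⟨h1, h1'⟩ := h1
  simp only [Real.exp_zero, zero_add, mul_zero, mul_one, zero_mul, zero_sub] at h0 h0' h1 h1'
  have hel : 0 < Real.exp l := Real.exp_pos l
  have hc : D'.1 1 0 = 0 := by
    rw [Real.exp_add] at h1
    have h3 : D'.1 1 0 * (Real.exp l * (Real.exp 1 * Real.exp 1 - 1)) = 0 := by
      linear_combination h1 - h0
    have h4 : Real.exp 1 * Real.exp 1 - 1 ≠ 0 := by
      have : 1 < Real.exp 1 := Real.one_lt_exp_iff.2 one_pos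
      nlinarith
    rcases mul_eq_zero.1 h3 with h | h
    · exact h
    · exact absurd h (mul_ne_zero hel.ne' h4)
  have hb : D'.1 0 1 = 0 := by rw [h0, hc]; ring
  have hdet := det_eq D'
  rw [hb, hc] at hdet
  have hd0 : D'.1 1 1 ≠ 0 := by
    intro h; rw [h] at hdet; norm_num at hdet
  have hne : D'.1 0 0 - D'.1 1 1 ≠ 0 := by
    rw [h0']
    have : Real.exp l * D'.1 1 1 - D'.1 1 1 = (Real.exp l - 1) * D'.1 1 1 := by ring
    rw [this]
    refine mul_ne_zero (sub_ne_zero.2 fun h => hl (Real.exp_eq_one_iff l |>.1 h)) hd0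
  have hm : E'.1 * D'.1 = D'.1 * E'.1 := congrArg Subtype.val hcom
  have m01 := congrFun (congrFun hm 0) 1
  have m10 := congrFun (congrFun hm 1) 0
  rw [Matrix.mul_apply, Matrix.mul_apply, Fin.sum_univ_two, Fin.sum_univ_two, hb] at m01
  rw [Matrix.mul_apply, Matrix.mul_apply, Fin.sum_univ_two, Fin.sum_univ_two, hc] at m10
  have q01 : E'.1 0 1 = 0 := by
    have : (D'.1 0 0 - D'.1 1 1) * E'.1 0 1 = 0 := by linear_combination -m01
    exact (mul_eq_zero.1 this).resolve_left hne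
  have q10 : E'.1 1 0 = 0 := by
    have : (D'.1 0 0 - D'.1 1 1) * E'.1 1 0 = 0 := by linear_combination m10
    exact (mul_eq_zero.1 this).resolve_left hne
  exact ⟨_, fun t => conj_smul hE q01 q10 t⟩

theorem t_CYC : S_CYC := by
  intro H _ τ hmul hinj hfin hne
  have h1 : τ 1 = 0 := by
    have := hmul 1 1
    rw [one_mul] at this
    linarith
  let T : H →* Multiplicative ℝ :=
    { toFun := fun a => Multiplicative.ofAdd (τ a)
      map_one' := by rw [h1]; rfl
      map_mul' := fun a b => by rw [hmul]; rfl }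
  have hpow : ∀ (a : H) (k : ℤ), τ (a ^ k) = k * τ a := by
    intro a k
    have := congrArg Multiplicative.toAdd (map_zpow T a k)
    rw [toAdd_zpow] at this
    simpa [T] using this
  have hinv : ∀ a, τ a⁻¹ = -τ a := by
    intro a
    have := hpow a (-1)
    simpa using this
  let R : AddSubgroup ℝ :=
    { carrier := Set.range τ
      zero_mem' := ⟨1, h1⟩
      add_mem' := by
        rintro _ _ ⟨a, rfl⟩ ⟨b, rfl⟩
        exact ⟨a * b, hmul a b⟩
      neg_mem' := by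
        rintro _ ⟨a, rfl⟩
        exact ⟨a⁻¹, hinv a⟩ }
  have hF : (insert 1 (τ '' {a : H | |τ a| ≤ 1} ∩ Set.Ioi 0)).Finite :=
    ((hfin.image τ).inter_of_left _).insert 1
  obtain ⟨ε, hε, hmin⟩ := Set.exists_min_image _ id hF ⟨1, Set.mem_insert _ _⟩
  have hε0 : 0 < ε := by
    rcases hε with h | h
    · rw [h]; exact one_pos
    · exact h.2
  have hε1 : ε ≤ 1 := hmin 1 (Set.mem_insert _ _)
  have hdis : Disjoint (R : Set ℝ) (Set.Ioo 0 ε) := by
    rw [Set.disjoint_left]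
    rintro _ ⟨a, rfl⟩ ⟨ha0, ha1⟩
    have h2 : |τ a| ≤ 1 := by rw [abs_of_pos ha0]; linarith
    have h3 : ε ≤ τ a := hmin (τ a) (Set.mem_insert_of_mem _ ⟨⟨a, h2, rfl⟩, ha0⟩)
    linarith
  obtain ⟨b, hb⟩ := AddSubgroup.cyclic_of_isolated_zero hε0 hdis
  have hbR : b ∈ R := by rw [hb]; exact AddSubgroup.subset_closure rfl
  obtain ⟨z, hz⟩ := hbR
  have hall : ∀ a, ∃ k : ℤ, a = z ^ k := by
    intro a
    have ha : τ a ∈ R := ⟨a, rfl⟩
    rw [hb, AddSubgroup.mem_closure_singleton] at ha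
    obtain ⟨k, hk⟩ := ha
    refine ⟨k, ?_⟩
    have h3 : τ (a * (z ^ k)⁻¹) = 0 := by
      rw [hmul, hinv, hpow, hz, ← hk, zsmul_eq_mul]; ring
    exact mul_inv_eq_one.1 (hinj _ h3)
  refine ⟨z, hall, fun k hk => ?_⟩
  have h3 := hpow z k
  rw [hk, h1] at h3
  rcases mul_eq_zero.1 h3.symm with h | h
  · exact_mod_cast h
  · obtain ⟨a, ha⟩ := hne
    obtain ⟨m, hm⟩ := hall a
    rw [hinj z h, one_zpow] at hm
    exact absurd hm ha

end Q198.RQ
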