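import Pool.Agent.Q198.RQ.Def

/-!
# Project RQ: statements of the lemma jobs

Row MP_adbdc7_gt (specialist): rank-one elements and stable centralisers.  Answer NO.
`Γ` = norm one units congruent to 1 mod 4 of the order `ℤ[√2]⟨1, i, j, k⟩`, `i² = -1`, `j² = 7`,
of the quaternion division algebra `(-1, 7)` over `ℚ(√2)`, which is split at both real places:
an irreducible torsion free cocompact lattice of `SL(2,ℝ) × SL(2,ℝ)`.  The element with
coordinates `(497 + 352√2, 280 + 196√2, 216 + 152√2, 0)` is hyperbolic at the first and elliptic at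
the second place.
-/

open UpperHalfPlane MatrixGroups

namespace Q198.RQ

/-- The embedding `√2 ↦ √2` of `ℤ[√2]` into `ℝ`. -/
noncomputable def pl : ℤ√2 →+* ℝ :=
  Zsqrtd.lift ⟨Real.sqrt 2, by rw [Real.mul_self_sqrt (by norm_num)]; norm_num⟩

/-- The embedding `√2 ↦ -√2` of `ℤ[√2]` into `ℝ`. -/
noncomputable def mi : ℤ√2 →+* ℝ :=
  Zsqrtd.lift ⟨-Real.sqrt 2, by rw [neg_mul_neg, Real.mul_self_sqrt (by norm_num)]; norm_num⟩

theorem pl_apply (x : ℤ√2) : pl x = x.re + x.im * Real.sqrt 2 := by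
  simp [pl]

theorem mi_apply (x : ℤ√2) : mi x = x.re - x.im * Real.sqrt 2 := by
  simp [mi, sub_eq_add_neg]

/-- Coordinate vectors of elements of the order, with respect to `1, i, j, k = ij`. -/
abbrev QV : Type := Fin 4 → ℤ√2

/-- The product of the order (`i² = -1`, `j² = 7`, `k = ij = -ji`). -/
def mulQ (x y : QV) : QV :=
  ![x 0 * y 0 - x 1 * y 1 + 7 * (x 2 * y 2) + 7 * (x 3 * y 3),
    x 0 * y 1 + x 1 * y 0 - 7 * (x 2 * y 3) + 7 * (x 3 * y 2),
    x 0 * y 2 + x 2 * y 0 - x 1 * y 3 + x 3 * y 1,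
    x 0 * y 3 + x 3 * y 0 + x 1 * y 2 - x 2 * y 1]

/-- The conjugate. -/
def conjQ (x : QV) : QV := ![x 0, -x 1, -x 2, -x 3]

/-- The reduced norm. -/
def nrd (x : QV) : ℤ√2 := x 0 ^ 2 + x 1 ^ 2 - 7 * x 2 ^ 2 - 7 * x 3 ^ 2

/-- The matrix of an element at the real place `φ`. -/
noncomputable def MM (φ : ℤ√2 →+* ℝ) (x : QV) : Matrix (Fin 2) (Fin 2) ℝ :=
  !![φ (x 0) + Real.sqrt 7 * φ (x 2), φ (x 1) - Real.sqrt 7 * φ (x 3);
     -(φ (x 1) + Real.sqrt 7 * φ (x 3)), φ (x 0) - Real.sqrt 7 * φ (x 2)]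

/-- The point `i e^t` of the upper half plane. -/
noncomputable def ax (t : ℝ) : ℍ := ⟨⟨0, Real.exp t⟩, Real.exp_pos t⟩

/-- JOB RQ-DIV.  The quaternion algebra is a division algebra.
Proof.  `π = 3 + √2` has norm 7, `π' = 3 - √2`, `π π' = 7`.  The ring map `ρ : ℤ√2 →+* ZMod 7` with
`√2 ↦ 4` (lift, `4 * 4 = 2` in `ZMod 7`) has: `ρ x = 0` iff `π ∣ x` (if `a + 4 b = 0 mod 7`, then
`(a + b√2)(3 - √2) = (3a - 2b) + (3b - a)√2` and both coordinates are divisible by 7), and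
`ρ π' = 6 ≠ 0`.  In `ZMod 7`: `u² + v² = 0` implies `u = v = 0` (decide).  Let `nrd x = 0`, so
`x0² + x1² = 7 (x2² + x3²)`.  Apply `ρ`: `π ∣ x0, x1`, `x0 = π y0`, `x1 = π y1`, then
`π (y0² + y1²) = π' (x2² + x3²)`, apply `ρ` again: `π ∣ x2, x3`.  So `x = π y` with `nrd y = 0`.
Descent: the natural number `∑ i, |Norm (x i)|` (`Zsqrtd.norm`, multiplicative, norm of `π` is 7) of
`x` is 7 times that of `y`; strong induction.  It vanishes only for `x = 0` as `a² = 2 b²` has only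
the zero solution (irrationality of `√2`; `Zsqrtd.norm_eq_zero` or `Nat.Prime.irrational_sqrt`). -/
def S_DIV : Prop := ∀ x : QV, nrd x = 0 → x = 0

/-- JOB RQ-FIX.  An element of `SL(2,ℝ)` with a fixed point in `ℍ` has trace of absolute value at
most 2; and with two different fixed points it is `1` or `-1`.
Proof.  `A • z = z` means `c z² + (d - a) z - b = 0` (multiply `(a z + b)/(c z + d) = z`, see
`UpperHalfPlane.specialLinearGroup_apply`).  Real and imaginary parts, `y = im z > 0`, `x = re z`: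
`2 c x + (d - a) = 0`, `c (x² - y²) + (d - a) x - b = 0`.  If `c = 0` then `a = d`, `b = 0`,
`a² = 1`.  If `c ≠ 0`: `(a+d)² - 4 = (a-d)² + 4bc = 4c²x² + 4c(-c x² - c y²) = -4c²y² < 0`.  And `x`, `y`
are determined by the matrix when `c ≠ 0` (`x = (a-d)/(2c)`, `c²y²` determined, `y > 0`). -/
def S_FIX : Prop :=
  (∀ (A : SL(2, ℝ)) (z : ℍ), A • z = z → |A.1 0 0 + A.1 1 1| ≤ 2) ∧
  ∀ (B : SL(2, ℝ)) (p q : ℍ), p ≠ q → B • p = p → B • q = q → B = 1 ∨ B = -1

/-- JOB RQ-ELL.  An element of `SL(2,ℝ)` with trace of absolute value less than 2 has a fixed point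
in `ℍ`.
Proof.  `c ≠ 0` (otherwise `a d = 1` and `|a + d| ≥ 2`).  Take `x = (a - d)/(2c)`,
`y = √(4 - (a+d)²)/(2|c|)`, `p = x + i y`; check `c p² + (d - a) p - b = 0`. -/
def S_ELL : Prop := ∀ B : SL(2, ℝ), |B.1 0 0 + B.1 1 1| < 2 → ∃ p : ℍ, B • p = p

/-- JOB RQ-HYP.  A hyperbolic element of `SL(2,ℝ)` translates along a geodesic.
Proof.  Let `a, b, c, d` be the entries, `T = a + d`, `|T| > 2`, `r = √(T² - 4) > 0`,
`λ = (T + r)/2`, `μ = (T - r)/2`, `λ μ = 1`, `λ ≠ μ`.  There is `S` in `SL(2,ℝ)` with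
`A S = S diag(λ, μ)`: if `c ≠ 0` the columns are `(λ - d, c)` and `(μ - d, c)` with determinant
`c (λ - μ)`, divide the first column by it; if `c = 0`, then `{a, d} = {λ, μ}` and `a ≠ d`; columns
`(1, 0)` (eigenvalue `a`) and `(b/(d-a), 1)` (eigenvalue `d`), then exchange the roles of `λ, μ`,
(so it is best to prove: there are `S`, `u`, `v` with `u v = 1`, `u ≠ v`, `A S = S diag(u, v)`).
`diag(u, v) • (i e^t) = i (u/v) e^t = i u² e^t`, and `l = log (u²) ≠ 0` because `u² ≠ 1` (if `u² = 1`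
then `v = u`). -/
def S_HYP : Prop :=
  ∀ A : SL(2, ℝ), 2 < |A.1 0 0 + A.1 1 1| →
    ∃ (S : SL(2, ℝ)) (l : ℝ), l ≠ 0 ∧ ∀ t : ℝ, A • (S • ax t) = S • ax (t + l)

/-- JOB RQ-COM.  What commutes with a translation along a geodesic is a translation along it.
Proof.  Replace `D, E` by `D' = S⁻¹ D S`, `E' = S⁻¹ E S`: `D' • ax t = ax (t + l)` for all `t`,
`E' D' = D' E'`; claim: `E' • ax t = ax (t + s)`.  From `D' • (i e^t) = i e^(t+l)` with entries
`a,b,c,d`: `a i e^t + b = i e^(t+l) (c i e^t + d)`, so `b = -c e^(2t+l)` for all `t` (take `t = 0, 1`):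
`c = 0`, `b = 0`, `a = d e^l`, so `D' = diag(a, d)`, `a ≠ d` as `l ≠ 0` (and `d ≠ 0`).  Commuting with
it forces the off diagonal entries of `E'` to vanish: `E' = diag(u, v)`, `u v = 1`, and
`E' • i e^t = i u² e^t`, `s = log (u²)`. -/
def S_COM : Prop :=
  ∀ (S D E : SL(2, ℝ)) (l : ℝ), l ≠ 0 → (∀ t, D • (S • ax t) = S • ax (t + l)) → E * D = D * E →
    ∃ s : ℝ, ∀ t, E • (S • ax t) = S • ax (t + s)

/-- JOB RQ-MINK.  Minkowski's theorem, uniformly in `A`, `B`.
Proof.  Consider the real linear map `L_{A,B} : (Fin 4 → ℝ × ℝ)` (or any model of `ℝ^8`, with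
coordinates `(m_i, n_i)`, `x_i = m_i + n_i √2`) to `ℝ^8`, `x ↦ (A * MM pl x, B * MM mi x)` extended
linearly to real `m_i, n_i`.  `L_{A,B}` is `L_{1,1}` followed by the left multiplications by `A` and
`B` on `2 × 2` matrices, which have determinant `(det A)² = 1`, `(det B)² = 1`.  `L_{1,1}` is injective
(the four entries of `MM` determine `φ (x_i)`, and `m + n√2 = 0 = m - n√2` gives `m = n = 0`), so its
determinant is some `D ≠ 0`.  The preimage under `L_{A,B}` of the box `|entries| ≤ C` has volume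
`(2C)^8 / |D|` (`MeasureTheory.Measure.addHaar_preimage_linearMap`), is convex and symmetric, so for
`(2C)^8 / |D| > 2^8` it contains a nonzero integer point
(`MeasureTheory.exists_ne_zero_mem_lattice_of_measure_mul_two_pow_lt_measure` with the lattice
`ℤ^8`, `ZSpan.isAddFundamentalDomain` of the standard basis, volume of the fundamental domain 1). -/
def S_MINK : Prop :=
  ∃ C : ℝ, ∀ A B : Matrix (Fin 2) (Fin 2) ℝ, A.det = 1 → B.det = 1 →
    ∃ x : QV, x ≠ 0 ∧ (∀ i j, |(A * MM pl x) i j| ≤ C) ∧ ∀ i j, |(B * MM mi x) i j| ≤ C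

/-- JOB RQ-CYC.  A discrete nontrivial subgroup of the line is infinite cyclic.
Proof.  The image of `τ` (as a homomorphism into `Multiplicative ℝ`, or an `AddSubgroup ℝ`) is
discrete: the finitely many values `|τ h| ≤ 1`, `h ≠ 1`, are nonzero, so there is `a > 0` with no
value in `(0, a)`.  `AddSubgroup.cyclic_of_isolated_zero`. -/
def S_CYC : Prop :=
  ∀ (H : Type) (_ : Group H) (τ : H → ℝ), (∀ a b, τ (a * b) = τ a + τ b) →
    (∀ a, τ a = 0 → a = 1) → {a : H | |τ a| ≤ 1}.Finite → (∃ a : H, a ≠ 1) →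
    ∃ z : H, (∀ a, ∃ k : ℤ, a = z ^ k) ∧ ∀ k : ℤ, z ^ k = 1 → k = 0

end Q198.RQ
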