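import Pool.Agent.Q198.RQ.Cen

/-!
# The quotient manifold
-/

open UpperHalfPlane MatrixGroups Pointwise

namespace Q198.RQ

instance contG2 : ContinuousConstSMul G2 (ℍ × ℍ) := ⟨fun g =>
  (continuous_fst.const_smul g.1).prodMk (continuous_snd.const_smul g.2)⟩

theorem contGam (Γ : Subgroup G2) : ContinuousConstSMul Γ (ℍ × ℍ) :=
  ⟨fun g => contG2.continuous_const_smul g.1⟩

theorem cancelGam (hD : S_DIV) (hF : S_FIX) : IsCancelSMul Gam (ℍ × ℍ) := by
  rw [isCancelSMul_iff_eq_one_of_smul_eq]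
  intro g x h
  exact Subtype.ext (free hD hF g.2 h)

theorem top_part (hD : S_DIV) (hF : S_FIX) (hM : S_MINK) :
    ProperlyDiscontinuousSMul Gam (ℍ × ℍ) ∧
    (∀ g ∈ Gam, ∀ x : ℍ × ℍ, g • x = x → g = 1) ∧
    CompactSpace (MulAction.orbitRel.Quotient Gam (ℍ × ℍ)) ∧
    T2Space (MulAction.orbitRel.Quotient Gam (ℍ × ℍ)) ∧
    IsQuotientCoveringMap (Quotient.mk (MulAction.orbitRel Gam (ℍ × ℍ))) Gam ∧
    SimplyConnectedSpace (ℍ × ℍ) ∧
    ∀ x : MulAction.orbitRel.Quotient Gam (ℍ × ℍ), Nonempty (FundamentalGroup _ x ≃* Gam) := by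
  have := cancelGam hD hF
  have := contGam Gam
  have hq : IsQuotientCoveringMap (Quotient.mk (MulAction.orbitRel Gam (ℍ × ℍ))) Gam :=
    isQuotientCoveringMap_quotientMk_of_properlyDiscontinuousSMul
  refine ⟨pdGam, fun g hg x h => free hD hF hg h, compact_quot hM hD, ?_, hq, inferInstance, ?_⟩
  · exact t2Space_of_properlyDiscontinuousSMul_of_t2Space
  · intro x
    obtain ⟨e, rfl⟩ := Quotient.exists_rep x
    exact ⟨(hq.fundamentalGroupEquiv ⟨e, rfl⟩).trans (MulEquiv.inv' Gam).symm⟩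

end Q198.RQ
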